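import Pool.Agent.V7H82.ZS.Reg

/-!
# Valuation rings with algebraic residues and discrete valuation rings with a given centre
-/

set_option autoImplicit false

universe u v

namespace Pool.Agent.V7H82.ZS

open IsLocalRing Polynomial Pool.Agent.W418.LU2 Pool.Agent.TH188.QS Pool.Agent.V7H82.ZR

/-- Zariski's lemma over a local ring. -/
theorem zariski {P C : Type u} [CommRing P] [IsLocalRing P] [CommRing C] [Algebra P C]
    [Algebra.FiniteType P C] (M : Ideal C) [hMm : M.IsMaximal]
    (hM : ∀ p ∈ maximalIdeal P, algebraMap P C p ∈ M) (z : C) :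
    ∃ q : P[X], q.Monic ∧ aeval z q ∈ M := by
  let _ : Field (C ⧸ M) := Ideal.Quotient.field M
  have hloc : IsLocalHom (algebraMap P (C ⧸ M)) := ⟨fun a ha => by
    by_contra h
    have h1 : algebraMap P (C ⧸ M) a = 0 :=
      Ideal.Quotient.eq_zero_iff_mem.2 (hM a ((mem_maximalIdeal _).2 h))
    rw [h1] at ha
    exact not_isUnit_zero ha⟩
  let φ : ResidueField P →+* C ⧸ M := IsLocalRing.ResidueField.lift (algebraMap P (C ⧸ M))
  let _ : Algebra (ResidueField P) (C ⧸ M) := φ.toAlgebra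
  have hst : IsScalarTower P (ResidueField P) (C ⧸ M) := .of_algebraMap_eq fun p =>
    (IsLocalRing.ResidueField.lift_residue_apply (algebraMap P (C ⧸ M)) p).symm
  have h1 : Algebra.FiniteType P (C ⧸ M) := inferInstance
  have h2 : Algebra.FiniteType (ResidueField P) (C ⧸ M) :=
    .of_restrictScalars_finiteType P _ _
  have h3 : Module.Finite (ResidueField P) (C ⧸ M) := finite_of_finite_type_of_isJacobsonRing _ _
  obtain ⟨p, hp, hp0⟩ := Algebra.IsIntegral.isIntegral (R := ResidueField P)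
    (Ideal.Quotient.mk M z)
  have hpl : p ∈ lifts (residue P) := by
    rw [mem_lifts]
    exact map_surjective _ residue_surjective p
  obtain ⟨q, hq, -, hqm⟩ := lifts_and_natDegree_eq_and_monic hpl hp
  refine ⟨q, hqm, ?_⟩
  rw [← Ideal.Quotient.eq_zero_iff_mem]
  have h4 : Ideal.Quotient.mk M (aeval z q) = eval₂ (algebraMap P (C ⧸ M))
      (Ideal.Quotient.mk M z) q := by
    rw [aeval_def, hom_eval₂]
    rfl
  rw [h4]
  rw [← hq, eval₂_map] at hp0
  exact hp0

variable {K : Type u} [Field K] {B : Subring K} {𝔭 : Ideal B}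

/-- The image of `z` in the residue field of `V` is algebraic over the residue field of `𝔭`. -/
def Rel (𝔭 : Ideal B) (V : ValuationSubring K) (z : K) : Prop :=
  ∃ f : B[X], (∃ i, f.coeff i ∉ 𝔭) ∧ V.valuation (aeval z f) < 1

/-- Valuation rings over the local ring. -/
theorem cen_of {V W : ValuationSubring K} (hBV : B ≤ V.toSubring)
    (hV : ∀ b : B, b ∈ 𝔭 ↔ V.valuation (b : K) < 1) (hPW : lo V.toSubring B ≤ W.toSubring)
    (h𝔭 : ∀ b ∈ 𝔭, W.valuation ((b : B) : K) < 1) :
    B ≤ W.toSubring ∧ ∀ b : B, b ∈ 𝔭 ↔ W.valuation (b : K) < 1 := by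
  refine ⟨(Pool.Agent.W418.LU2.le_lo _ _).trans hPW, fun b => ⟨h𝔭 b, fun hb => ?_⟩⟩
  by_contra h1
  have h2 : ¬ V.valuation (b : K) < 1 := fun h3 => h1 ((hV b).2 h3)
  rw [← nu_iff] at h2 hb
  have h3 : (b : K) ≠ 0 ∧ (b : K)⁻¹ ∈ V.toSubring := not_not.1 h2
  apply hb
  exact ⟨h3.1, hPW (inv_mem_lo hBV (Pool.Agent.W418.LU2.le_lo _ _ b.2) h3.1 h3.2)⟩

/-- A valuation ring with the same centre in a given patch neighbourhood in which a given residue is
algebraic. -/
theorem near_alg (V : Cen B 𝔭) {A N : Set K} (hA : A.Finite) (hN : N.Finite)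
    (hAV : ∀ x ∈ A, mem V x) (hNV : ∀ x ∈ N, ¬ mem V x) {z : K} (hz : mem V z) :
    ∃ W : Cen B 𝔭, (∀ x ∈ A, mem W x) ∧ (∀ x ∈ N, ¬ mem W x) ∧ Rel 𝔭 W.1 z := by
  classical
  obtain ⟨V, hBV, hV⟩ := V
  change ∀ x ∈ A, x ∈ V at hAV
  change ∀ x ∈ N, x ∉ V at hNV
  change z ∈ V at hz
  set P := lo V.toSubring B with hP
  have hPV : P ≤ V.toSubring := lo_le hBV
  have hloc : IsLocalRing P := isLocalRing_lo (loc_V V) hBV
  let T : Set K := insert z (A ∪ (fun y => y⁻¹) '' N)
  have hT : T.Finite := (hA.union (hN.image _)).insert z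
  let C := Algebra.adjoin P T
  have hTV : ∀ t ∈ T, t ∈ V := by
    rintro t (rfl | ht | ⟨y, hy, rfl⟩)
    · exact hz
    · exact hAV t ht
    · exact (V.mem_or_inv_mem y).resolve_left (hNV y hy)
  have hCV : C.toSubring ≤ V.toSubring := by
    have h1 : C ≤ ({ V.toSubring with algebraMap_mem' := fun p => hPV p.2 } : Subalgebra P K) := by
      apply Algebra.adjoin_le
      exact fun t ht => hTV t ht
    exact fun c hc => h1 hc
  have hft : Algebra.FiniteType P C :=
    (Subalgebra.fg_iff_finiteType _).1 ⟨hT.toFinset, by rw [hT.coe_toFinset]⟩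
  obtain ⟨𝔮, h𝔮, hmem, -⟩ := lo_loc (loc_V V) hCV
  obtain ⟨M, hM, h𝔮M⟩ := Ideal.exists_le_maximal 𝔮 h𝔮.ne_top
  have hMp := hM.isPrime
  obtain ⟨W, hW, hcen⟩ := cen_nonempty (B := C.toSubring) (𝔭 := M)
  have hPC : P ≤ C.toSubring := fun p hp => C.algebraMap_mem ⟨p, hp⟩
  have hPW : P ≤ W.toSubring := hPC.trans hW
  have hnu : ∀ c : C.toSubring, V.valuation (c : K) < 1 → W.valuation (c : K) < 1 := by
    intro c hc
    rw [← hcen]
    apply h𝔮M
    rw [hmem, nu_iff]
    exact hc
  have hBP : B ≤ P := Pool.Agent.W418.LU2.le_lo _ _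
  have hcenW := cen_of hBV hV hPW fun b hb => hnu ⟨b, hPC (hBP b.2)⟩ ((hV b).1 hb)
  refine ⟨⟨W, hcenW⟩, fun x hx => hW (Algebra.subset_adjoin (Or.inr (Or.inl hx))),
    fun x hx hxW => ?_, ?_⟩
  · have h1 : x⁻¹ ∈ C.toSubring := Algebra.subset_adjoin (Or.inr (Or.inr ⟨x, hx, rfl⟩))
    have hx0 : x ≠ 0 := by
      rintro rfl
      exact hNV 0 hx V.zero_mem
    have h2 : W.valuation (x⁻¹) < 1 := by
      refine hnu ⟨_, h1⟩ ?_
      rw [← nu_iff]
      rintro ⟨-, h3⟩
      change x⁻¹⁻¹ ∈ V at h3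
      rw [inv_inv] at h3
      exact hNV x hx h3
    rw [← nu_iff] at h2
    refine h2 ⟨inv_ne_zero hx0, ?_⟩
    rw [inv_inv]
    exact hxW
  · obtain ⟨q, hqm, hq⟩ := zariski (P := P) (C := C) M (hMm := hM) (fun p hp => by
      have h1 : V.valuation (p : K) < 1 := by
        rw [← nu_iff]
        rw [mem_maximalIdeal, mem_nonunits_iff, isUnit_lo_iff hBV] at hp
        exact hp
      have h2 : W.valuation (p : K) < 1 := hnu ⟨p, hPC p.2⟩ h1
      exact (hcen ⟨p, hPC p.2⟩).2 h2) ⟨z, Algebra.subset_adjoin (Or.inl rfl)⟩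
    have hq' : W.valuation (aeval z q) < 1 := by
      have h1 := (hcen _).1 hq
      have h2 : ((aeval (⟨z, Algebra.subset_adjoin (Or.inl rfl)⟩ : C) q : C) : K) = aeval z q :=
        (aeval_algHom_apply C.val (⟨z, Algebra.subset_adjoin (Or.inl rfl)⟩ : C) q).symm
      rw [h2] at h1
      exact h1
    obtain ⟨β, hβ, hβ0, hβV, hall⟩ := comden hBV (z := fun i : Fin (q.natDegree + 1) =>
      ((q.coeff i : P) : K)) (fun i => (q.coeff i).2)
    let c : ℕ → B := fun i => if h : i < q.natDegree + 1 then ⟨_, hall ⟨i, h⟩⟩ else 0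
    have hc : ∀ i ∈ Finset.range (q.natDegree + 1), ((c i : B) : K) = ((q.coeff i : P) : K) * β := by
      intro i hi
      have hi' := Finset.mem_range.1 hi
      simp only [c, dif_pos hi']
    let f : B[X] := ∑ i ∈ Finset.range (q.natDegree + 1), monomial i (c i)
    have hf : aeval z f = β * aeval z q := by
      have h1 : aeval z f = ∑ i ∈ Finset.range (q.natDegree + 1), ((c i : B) : K) * z ^ i := by
        rw [map_sum]
        refine Finset.sum_congr rfl fun i _ => ?_
        rw [aeval_monomial]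
        rfl
      rw [h1, aeval_eq_sum_range, Finset.mul_sum]
      refine Finset.sum_congr rfl fun i hi => ?_
      rw [hc i hi, Algebra.smul_def]
      change ((q.coeff i : P) : K) * β * z ^ i = β * (((q.coeff i : P) : K) * z ^ i)
      ring
    refine ⟨f, ⟨q.natDegree, ?_⟩, ?_⟩
    · have h1 : f.coeff q.natDegree = c q.natDegree := by
        rw [finsetSum_coeff, Finset.sum_eq_single q.natDegree]
        · rw [coeff_monomial_same]
        · intro i _ hi
          rw [coeff_monomial_of_ne _ hi.symm]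
        · intro h
          exact absurd (Finset.self_mem_range_succ _) h
      rw [h1, hV, ← nu_iff, hc _ (Finset.self_mem_range_succ _), hqm.coeff_natDegree]
      intro h2
      apply h2
      rw [Subring.coe_one, one_mul]
      exact ⟨hβ0, hβV⟩
    · rw [hf, map_mul]
      have h1 := (W.valuation_le_one_iff _).2 (hW (hPC (hBP hβ)))
      calc W.valuation β * W.valuation (aeval z q) ≤ 1 * W.valuation (aeval z q) :=
            mul_le_mul_left h1 _
        _ < 1 := by rw [one_mul]; exact hq'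

end Pool.Agent.V7H82.ZS
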