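import Pool.Agent.V7H82.ZS.Zmt

/-!
# Approximate roots of arbitrary precision
-/

set_option autoImplicit false

universe u v

namespace Pool.Agent.V7H82.ZS

open IsLocalRing Polynomial Pool.Agent.W418.LU2 Pool.Agent.TH188.QS Pool.Agent.V7H82.ZR

/-- The kernel of the evaluation in `z / s`. -/
theorem ker_gen {K : Type u} [Field K] {P : Subring K} {z s : P} (hs0 : s ≠ 0)
    (h : ∀ a : P, s ∣ a * z → s ∣ a) : ∀ (n : ℕ) (f : P[X]), f.natDegree ≤ n →
      aeval ((z : K) / (s : K)) f = 0 → ∃ e : P[X], f = (C s * X - C z) * e := by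
  have hs0' : (s : K) ≠ 0 := fun h => hs0 (Subtype.ext h)
  have hpow : ∀ (N : ℕ) (a : P), s ∣ a * z ^ N → s ∣ a := by
    intro N
    induction N with
    | zero => intro a ha; simpa using ha
    | succ N ih =>
      intro a ha
      refine ih a (h _ ?_)
      rwa [mul_assoc, ← pow_succ]
  intro n
  induction n with
  | zero =>
    intro f hf h0
    have h1 := eq_C_of_natDegree_le_zero hf
    rw [h1, aeval_C] at h0
    have h2 : f.coeff 0 = 0 := Subtype.ext h0
    refine ⟨0, ?_⟩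
    rw [h1, h2, C_0, mul_zero]
  | succ n ih =>
    intro f hf h0
    have hdvd : s ∣ f.coeff (n + 1) := by
      apply hpow (n + 1)
      refine ⟨- ∑ i ∈ Finset.range (n + 1), f.coeff i * z ^ i * s ^ (n - i), ?_⟩
      apply Subtype.ext
      have h1 : ∑ i ∈ Finset.range (n + 1 + 1), ((f.coeff i : P) : K) * ((z : K) / (s : K)) ^ i = 0 := by
        rw [aeval_eq_sum_range' (Nat.lt_succ_of_le hf)] at h0
        exact h0
      have h2 : (s : K) ^ (n + 1) * ∑ i ∈ Finset.range (n + 1 + 1),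
          ((f.coeff i : P) : K) * ((z : K) / (s : K)) ^ i = 0 := by
        rw [h1, mul_zero]
      rw [Finset.sum_range_succ, mul_add, Finset.mul_sum] at h2
      have h3 : ∀ i ∈ Finset.range (n + 1), (s : K) ^ (n + 1) * (((f.coeff i : P) : K) *
          ((z : K) / (s : K)) ^ i) = (s : K) * ((f.coeff i : P) * (z : K) ^ i *
            (s : K) ^ (n - i)) := by
        intro i hi
        have hi' : n + 1 = (n - i) + 1 + i := by
          have := Finset.mem_range.1 hi
          omega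
        rw [hi', pow_add, pow_succ, div_pow]
        have h4 : n - i + 1 + i - 1 - i = n - i := by omega
        field_simp
      have h6 : (s : K) ^ (n + 1) * (((f.coeff (n + 1) : P) : K) *
          ((z : K) / (s : K)) ^ (n + 1)) = ((f.coeff (n + 1) : P) : K) * (z : K) ^ (n + 1) := by
        rw [div_pow]
        field_simp
      rw [Finset.sum_congr rfl h3, ← Finset.mul_sum, h6] at h2
      have h5 : ((- ∑ i ∈ Finset.range (n + 1), f.coeff i * z ^ i * s ^ (n - i) : P) : K) =
          - ∑ i ∈ Finset.range (n + 1), ((f.coeff i : P) : K) * (z : K) ^ i *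
            (s : K) ^ (n - i) := by
        push_cast
        rfl
      rw [Subring.coe_mul, Subring.coe_mul, h5, Subring.coe_pow]
      linear_combination h2
    obtain ⟨a', ha'⟩ := hdvd
    have hzs : (s : K) * ((z : K) / (s : K)) = z := mul_div_cancel₀ _ hs0'
    have hev : aeval ((z : K) / (s : K)) (C s * X - C z) = 0 := by
      rw [map_sub, map_mul, aeval_X, aeval_C, aeval_C]
      change (s : K) * ((z : K) / (s : K)) - z = 0
      rw [hzs, sub_self]
    let f' : P[X] := f - (C s * X - C z) * (C a' * X ^ n)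
    have h1 : aeval ((z : K) / (s : K)) f' = 0 := by
      rw [map_sub, map_mul, hev, zero_mul, h0, sub_zero]
    have hlin : (C s * X - C z : P[X]).natDegree ≤ 1 := by
      refine (natDegree_sub_le _ _).trans (max_le ?_ ?_)
      · exact (natDegree_C_mul_le _ _).trans natDegree_X_le
      · rw [natDegree_C]
        exact Nat.zero_le _
    have hdeg : f'.natDegree ≤ n := by
      rw [natDegree_le_iff_coeff_eq_zero]
      intro N hN
      rcases Nat.lt_or_ge (n + 1) N with hN' | hN'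
      · rw [coeff_sub, coeff_eq_zero_of_natDegree_lt (lt_of_le_of_lt hf hN'),
          coeff_eq_zero_of_natDegree_lt, sub_zero]
        refine lt_of_le_of_lt (natDegree_mul_le.trans (add_le_add hlin
          (natDegree_C_mul_X_pow_le _ _))) ?_
        omega
      · have hN'' : N = n + 1 := by omega
        rw [hN'', coeff_sub, ha']
        have h2 : ((C s * X - C z) * (C a' * X ^ n) : P[X]) =
            C (s * a') * X ^ (n + 1) - C (z * a') * X ^ n := by
          rw [C_mul, C_mul]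
          ring
        rw [h2, coeff_sub, coeff_C_mul_X_pow, coeff_C_mul_X_pow, if_pos rfl,
          if_neg (by omega), sub_zero, sub_self]
    obtain ⟨e, he⟩ := ih f' hdeg h1
    refine ⟨e + C a' * X ^ n, ?_⟩
    rw [mul_add, ← he]
    exact (sub_add_cancel _ _).symm

/-- Division by `δ` modulo a monic polynomial and `s X - z`. -/
theorem desc {P : Type u} [CommRing P] [IsDomain P] {δ s' z : P} (hδ : δ ≠ 0)
    (h : ∀ a : P, δ ∣ a * z → δ ∣ a) {g : P[X]} (hg : g.Monic) {F H E : P[X]}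
    (hF : C δ * F = g * H + (C (δ * s') * X - C z) * E) :
    ∃ H' E' : P[X], F = g * H' + (C (δ * s') * X - C z) * E' := by
  classical
  let I : Ideal P := Ideal.span {δ, z}
  let π : P[X] →+* (P ⧸ I)[X] := mapRingHom (Ideal.Quotient.mk I)
  have hδI : π (C δ) = 0 := by
    have h1 : Ideal.Quotient.mk I δ = 0 :=
      Ideal.Quotient.eq_zero_iff_mem.2 (Ideal.subset_span (Or.inl rfl))
    rw [coe_mapRingHom, map_C, h1, C_0]
  have hzI : π (C z) = 0 := by
    have h1 : Ideal.Quotient.mk I z = 0 :=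
      Ideal.Quotient.eq_zero_iff_mem.2 (Ideal.subset_span (Or.inr rfl))
    rw [coe_mapRingHom, map_C, h1, C_0]
  have h1 : π g * π H = 0 := by
    have h2 := congrArg π hF
    rw [map_mul, hδI, zero_mul, map_add, map_mul, map_mul, map_sub, map_mul, C_mul, map_mul, hδI,
      zero_mul, zero_mul, hzI, sub_zero, zero_mul, add_zero] at h2
    exact h2.symm
  have h2 : π H = 0 := by
    have h3 : (π g).Monic := hg.map _
    exact (h3.mul_right_eq_zero_iff).1 h1
  have hHc : ∀ i, ∃ a b : P, H.coeff i = δ * a + z * b := by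
    intro i
    have h3 : H.coeff i ∈ I := by
      rw [← Ideal.Quotient.eq_zero_iff_mem]
      have h4 := congrArg (fun q => q.coeff i) h2
      simpa [π, coeff_map] using h4
    obtain ⟨a, b, hab⟩ := Ideal.mem_span_pair.1 h3
    exact ⟨a, b, by rw [← hab]; ring⟩
  choose a b hab using hHc
  let H₁ : P[X] := ∑ i ∈ Finset.range (H.natDegree + 1), monomial i (a i)
  let H₂ : P[X] := ∑ i ∈ Finset.range (H.natDegree + 1), monomial i (b i)
  have hH : H = C δ * H₁ + C z * H₂ := by
    conv_lhs => rw [H.as_sum_range]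
    rw [Finset.mul_sum, Finset.mul_sum, ← Finset.sum_add_distrib]
    refine Finset.sum_congr rfl fun i _ => ?_
    rw [C_mul_monomial, C_mul_monomial, ← map_add, ← hab]
  have h5 : C z * (E - g * H₂) = C δ * (g * H₁ + C s' * X * E - F) := by
    rw [hH, C_mul] at hF
    linear_combination hF
  have h6 : ∀ i, δ ∣ (E - g * H₂).coeff i := by
    intro i
    apply h
    have h7 := congrArg (fun q => q.coeff i) h5
    simp only [coeff_C_mul] at h7
    rw [mul_comm, h7]
    exact Dvd.intro _ rfl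
  obtain ⟨E₁, hE₁⟩ := (C_dvd_iff_dvd_coeff _ _).2 h6
  refine ⟨H₁ + C s' * X * H₂, E₁, ?_⟩
  have h8 : (C δ : P[X]) ≠ 0 := C_ne_zero.2 hδ
  have h9 : C z * E₁ = g * H₁ + C s' * X * E - F := by
    apply mul_left_cancel₀ h8
    rw [← h5, hE₁]
    ring
  have h10 : E = g * H₂ + C δ * E₁ := by
    rw [← hE₁]
    ring
  rw [C_mul]
  rw [h10] at h9
  linear_combination h9

variable {K : Type u} [Field K] {P : Subring K}

/-- A monic polynomial gets a root of given precision. -/
theorem dom_apx (hP : IsRegularLocalRing P) (hm : ¬ (maximalIdeal P).IsPrincipal) {n : ℕ}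
    {x : Fin n → P} (hx : Ind x) {δ v : P} (hv : IsUnit v) {m : Fin n → ℕ}
    (hδ : δ = v * ∏ i, x i ^ m i) {g : P[X]} (hg : g.Monic) (hg1 : 0 < g.natDegree) :
    ∃ (V : ValuationSubring K) (y : K), Dom V P ∧ y ∈ V ∧
      V.valuation (aeval y g / (δ : K)) < 1 := by
  classical
  have hprod0 : ∏ i, x i ^ m i ≠ 0 :=
    Finset.prod_ne_zero_iff.2 fun i _ => pow_ne_zero _ (hx.ne_zero i)
  have hδ0 : δ ≠ 0 := by
    rw [hδ]
    exact mul_ne_zero hv.ne_zero hprod0
  have hδ0' : (δ : K) ≠ 0 := fun h => hδ0 (Subtype.ext h)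
  by_cases hδu : IsUnit δ
  · obtain ⟨V, y, hV, hyV, hy⟩ := dom_root (K := K) hP hm hg hg1
    refine ⟨V, y, hV, hyV, ?_⟩
    have h1 : V.valuation (δ : K) = 1 := by
      obtain ⟨d, hd⟩ := isUnit_iff_exists_inv.1 hδu
      have h2 : (δ : K) * (d : K) = 1 := congrArg Subtype.val hd
      refine val_one (hV.1 δ.2) hδ0' ?_
      rw [← eq_inv_of_mul_eq_one_right h2]
      exact hV.1 d.2
    rw [map_div₀, h1, div_one]
    exact hy
  have hδm : δ ∈ maximalIdeal P := (mem_maximalIdeal _).2 hδu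
  obtain ⟨z, hzm, hz0, hz⟩ := exists_prime_to hx hm
  have hz0' : (z : K) ≠ 0 := fun h => hz0 (Subtype.ext h)
  -- regular sequences
  have hreg1 : ∀ a : P, δ ∣ a * z → δ ∣ a := by
    intro a ha
    rw [hδ, hv.mul_left_dvd] at ha ⊢
    exact dvd_of_mono x m Finset.univ (fun i _ => hx.prime i) (fun i _ => hz i) a ha
  have hreg2 : ∀ a : P, z ∣ a * δ → z ∣ a := by
    rintro a ⟨b, hb⟩
    obtain ⟨c, hc⟩ := hreg1 b (Dvd.intro_left a (by rw [hb]; ring))
    refine ⟨c, ?_⟩
    apply mul_right_cancel₀ hδ0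
    rw [hb, hc]
    ring
  obtain ⟨V₁, hPV₁, hdom₁, huV₁, hgu₁⟩ := exists_dom (K := K) hzm hz0 hδ0 hreg2 hδm hg hg1
  set u : K := (z : K) / (δ : K) with hu
  by_cases hg0 : aeval u g = 0
  · refine ⟨V₁, u, ⟨hPV₁, fun p hp => hdom₁ p ((mem_maximalIdeal _).2 hp)⟩, huV₁, ?_⟩
    rw [hg0, zero_div, map_zero]
    exact zero_lt_one
  -- the local ring of `P[u]`
  let A : Subring K := (aeval u : P[X] →ₐ[P] K).toRingHom.range
  have hAV : A ≤ V₁.toSubring := by
    rintro _ ⟨f, rfl⟩
    exact mem_aeval hPV₁ huV₁ f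
  have hPA : P ≤ A := fun p hp => ⟨C ⟨p, hp⟩, aeval_C u _⟩
  have hlocQ : IsLocalRing (lo V₁.toSubring A) := isLocalRing_lo (loc_V V₁) hAV
  have hAQ : A ≤ lo V₁.toSubring A := Pool.Agent.W418.LU2.le_lo _ _
  have hguA : aeval u g ∈ A := ⟨g, rfl⟩
  let G : lo V₁.toSubring A := ⟨aeval u g, hAQ hguA⟩
  let δQ : lo V₁.toSubring A := ⟨δ, hAQ (hPA δ.2)⟩
  have hnu : ∀ y : lo V₁.toSubring A, V₁.valuation (y : K) < 1 →
      y ∈ maximalIdeal (lo V₁.toSubring A) := by
    intro y hy
    rw [mem_maximalIdeal, mem_nonunits_iff, isUnit_lo_iff hAV]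
    rw [← nu_iff] at hy
    exact hy
  have hkey : ∀ F : P[X], (∃ a ∈ A, (δ : K) * aeval u F = aeval u g * a) →
      ∃ a ∈ A, aeval u F = aeval u g * a := by
    rintro F ⟨_, ⟨H, rfl⟩, ha⟩
    have h1 : aeval u (C δ * F - g * H) = 0 := by
      rw [map_sub, map_mul, map_mul, aeval_C]
      exact sub_eq_zero.2 ha
    obtain ⟨E, hE⟩ := ker_gen (K := K) (z := z) (s := δ) hδ0 hreg1 _ _ le_rfl h1
    obtain ⟨H', E', hF⟩ := desc (s' := 1) hδ0 hreg1 hg (F := F) (H := H) (E := E) (by
      rw [mul_one, ← hE]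
      ring)
    refine ⟨aeval u H', ⟨H', rfl⟩, ?_⟩
    have hev : aeval u (C (δ * 1) * X - C z) = 0 := by
      rw [map_sub, map_mul, aeval_X, aeval_C, aeval_C, mul_one]
      change (δ : K) * u - z = 0
      rw [hu, mul_div_cancel₀ _ hδ0', sub_self]
    rw [hF, map_add, map_mul, map_mul, hev, zero_mul, add_zero]
  have hregQ : ∀ a : lo V₁.toSubring A, G ∣ a * δQ → G ∣ a := by
    rintro ⟨_, a, ha, b, hb, hb0, hbV, rfl⟩ ⟨⟨_, a', ha', b', hb', hb0', hbV', rfl⟩, hc⟩
    have hc' : a * b⁻¹ * (δ : K) = aeval u g * (a' * b'⁻¹) := congrArg Subtype.val hc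
    obtain ⟨F, hF⟩ := A.mul_mem ha hb'
    have hF' : aeval u F = a * b' := hF
    obtain ⟨c, hcA, hc2⟩ := hkey F ⟨a' * b, A.mul_mem ha' hb, by
      rw [hF']
      field_simp at hc'
      linear_combination hc'⟩
    refine ⟨⟨c * (b * b')⁻¹, c, hcA, b * b', A.mul_mem hb hb', mul_ne_zero hb0 hb0', ?_, rfl⟩,
      Subtype.ext ?_⟩
    · rw [mul_inv]
      exact V₁.mul_mem _ _ hbV hbV'
    · change a * b⁻¹ = aeval u g * (c * (b * b')⁻¹)
      rw [hF'] at hc2
      field_simp
      linear_combination hc2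
  have hG0 : G ≠ 0 := fun h => hg0 (congrArg Subtype.val h)
  have hδQ0 : δQ ≠ 0 := fun h => hδ0' (congrArg Subtype.val h)
  obtain ⟨V, hQV, hdom, -, hw⟩ := exists_dom (K := K) (P := lo V₁.toSubring A) (hnu G hgu₁) hG0
    hδQ0 hregQ (hnu δQ (hdom₁ δ hδm)) monic_X (by rw [natDegree_X]; exact one_pos)
  rw [aeval_X] at hw
  refine ⟨V, u, ⟨(hPA.trans hAQ).trans hQV, fun p hp => ?_⟩, ?_, hw⟩
  · exact hdom ⟨p, hAQ (hPA p.2)⟩ (hnu _ (hdom₁ p ((mem_maximalIdeal _).2 hp)))
  · exact hQV (hAQ ⟨X, aeval_X u⟩)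

end Pool.Agent.V7H82.ZS
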