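import Pool.Agent.V7H82.ZS.Apx

/-!
# Generic valuation rings have approximate roots of every precision
-/

set_option autoImplicit false

universe u v

namespace Pool.Agent.V7H82.ZS

open IsLocalRing Polynomial Pool.Agent.W418.LU2 Pool.Agent.TH188.QS Pool.Agent.V7H82.ZR
open scoped Topology

variable {K : Type u} [Field K] {B : Subring K} {𝔭 : Ideal B}

/-- Near `V` a monic polynomial gets a root of given precision, or `V` is isolated. -/
theorem near_apx [IsNoetherianRing B] (hfr : ∀ z : K, Fr B z) (V : Cen B 𝔭)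
    (hLU : LogUnif V.1 B) (halg : ∀ z, mem V z → Rel 𝔭 V.1 z) {A N : Set K} (hA : A.Finite)
    (hN : N.Finite) (hAV : ∀ x ∈ A, mem V x) (hNV : ∀ x ∈ N, ¬ mem V x) {g : K[X]}
    (hg : g.Monic) (hg1 : 0 < g.natDegree) (hgV : ∀ i, g.coeff i ∈ V.1) {c : K} (hc : c ≠ 0) :
    (∃ W : Cen B 𝔭, (∀ x ∈ A, mem W x) ∧ (∀ x ∈ N, ¬ mem W x) ∧
      ∃ y ∈ W.1, W.1.valuation (g.eval y / c) < 1) ∨ Isol V := by
  wlog hcV : c ∈ V.1 generalizing c A
  · have hc' : c⁻¹ ∈ V.1 := (V.1.mem_or_inv_mem c).resolve_left hcV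
    rcases this (A := insert c⁻¹ A) (hA.insert _) (by
      rintro x (rfl | hx)
      · exact hc'
      · exact hAV x hx) (c := 1) one_ne_zero V.1.one_mem with ⟨W, h1, h2, y, hyW, hy⟩ | h
    · refine Or.inl ⟨W, fun x hx => h1 x (Or.inr hx), h2, y, hyW, ?_⟩
      have h3 : W.1.valuation c⁻¹ ≤ 1 := (W.1.valuation_le_one_iff _).2 (h1 _ (Or.inl rfl))
      rw [div_one] at hy
      rw [div_eq_mul_inv, map_mul]
      calc _ ≤ W.1.valuation (g.eval y) * 1 := mul_le_mul_right h3 _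
        _ < 1 := by rw [mul_one]; exact hy
    · exact Or.inr h
  · let A₁ : Set K := insert c ((A ∪ (fun y => y⁻¹) '' N) ∪ (g.coeff '' (Set.Iic g.natDegree)))
    have hA₁ : A₁.Finite := ((hA.union (hN.image _)).union ((Set.finite_Iic _).image _)).insert c
    have hA₁V : ∀ a ∈ A₁, a ∈ V.1 := by
      rintro a (rfl | (ha | ⟨y, hy, rfl⟩) | ⟨i, -, rfl⟩)
      · exact hcV
      · exact hAV a ha
      · exact (V.1.mem_or_inv_mem y).resolve_left (hNV y hy)
      · exact hgV i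
    obtain ⟨C, T, hT, hC, hTV, hAP, hP, n, x, v, m, hx, hv, hcm⟩ :=
      exists_reg V.2.1 hfr hLU hA₁ hA₁V (z := c) (Or.inl rfl) hc
    by_cases hm : (maximalIdeal (lo V.1.toSubring C)).IsPrincipal
    · exact Or.inr (isol_of_principal hfr V halg hT hC hTV hm)
    · have hBC : B ≤ C := by
        rw [hC]
        exact fun b hb => Subring.subset_closure (Or.inl hb)
      have hCV : C ≤ V.1.toSubring := by
        rw [hC]
        exact cl_le V.2.1 hTV
      have hcoef : ∀ i, g.coeff i ∈ lo V.1.toSubring C := by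
        intro i
        by_cases hi : i ≤ g.natDegree
        · exact hAP _ (Or.inr (Or.inr ⟨i, hi, rfl⟩))
        · rw [coeff_eq_zero_of_natDegree_lt (by omega)]
          exact (lo V.1.toSubring C).zero_mem
      have hsub : (g.coeffs : Set K) ⊆ lo V.1.toSubring C := by
        intro c hc
        obtain ⟨i, -, rfl⟩ := mem_coeffs_iff.1 hc
        exact hcoef i
      obtain ⟨W, y, hW, hyW, hy⟩ := dom_apx hP hm hx (δ := ⟨c, hAP c (Or.inl rfl)⟩) hv
        (Subtype.ext hcm) (g := g.toSubring _ hsub) ((monic_toSubring _ _ _).2 hg) (by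
          rw [natDegree_toSubring]; exact hg1)
      obtain ⟨W', rfl, h1, h2⟩ := dom_near (A := A) (N := N) hBC hCV hW
        (fun x hx => hAP x (Or.inr (Or.inl (Or.inl hx)))) hNV
        (fun x hx => hAP _ (Or.inr (Or.inl (Or.inr ⟨x, hx, rfl⟩))))
      refine Or.inl ⟨W', h1, h2, y, hyW, ?_⟩
      have h3 : aeval y (g.toSubring _ hsub) = g.eval y := by
        conv_rhs => rw [← map_toSubring g _ hsub]
        rw [eval_map, aeval_def]
        rfl
      rw [← h3]
      exact hy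

/-- Monic polynomials have roots of every precision. -/
def Apx (V : ValuationSubring K) : Prop :=
  ∀ g : K[X], g.Monic → 0 < g.natDegree → (∀ i, g.coeff i ∈ V) → ∀ c : K, c ≠ 0 →
    ∃ y ∈ V, V.valuation (g.eval y / c) < 1

section residual

variable (D : Set (Cen B 𝔭)) (hD : @Dense (Cen B 𝔭) (pt mem) D)
  (hDL : ∀ V ∈ D, LogUnif V.1 B ∧ ∀ z, mem V z → Rel 𝔭 V.1 z)

include hD hDL

theorem nd_apx [IsNoetherianRing B] (hfr : ∀ z : K, Fr B z) {g : K[X]} (hg : g.Monic)
    (hg1 : 0 < g.natDegree) {c : K} (hc : c ≠ 0) : @IsNowhereDense (Cen B 𝔭) (pt mem)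
      {V | ¬ (Isol V ∨ ((∀ i, g.coeff i ∈ V.1) →
        ∃ y ∈ V.1, V.1.valuation (g.eval y / c) < 1))} := by
  let _ : TopologicalSpace (Cen B 𝔭) := pt mem
  refine pt_nowhereDense fun V₁ A N hA hN h1 h2 => ?_
  obtain ⟨V, ⟨hVA, hVN⟩, hVD⟩ := hD.inter_open_nonempty _ (pt_isOpen_basic (m := mem) hA hN)
    ⟨V₁, h1, h2⟩
  obtain ⟨hLU, halg⟩ := hDL V hVD
  by_cases hgV : ∀ i, g.coeff i ∈ V.1
  swap
  · push Not at hgV
    obtain ⟨i, hi⟩ := hgV
    refine ⟨V, ∅, {g.coeff i}, Set.finite_empty, Set.finite_singleton _, by simpa using hVA, ?_,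
      fun V' _ h8 h9 => h9 (Or.inr fun h10 => absurd (h10 i) (h8 _ rfl))⟩
    rintro w (hw | hw)
    · exact hVN w hw
    · rw [Set.mem_singleton_iff.1 hw]
      exact hi
  rcases near_apx hfr V hLU halg hA hN hVA hVN hg hg1 hgV hc with ⟨W, h3, h4, y, hyW, hy⟩ | hI
  · obtain ⟨N', hN', h5, h6⟩ := open_lt W hy
    refine ⟨W, {y}, N', Set.finite_singleton _, hN', ?_, ?_,
      fun V' h7 h7' h8 => h8 (Or.inr fun _ => ⟨y, h7 _ rfl, h6 V' h7'⟩)⟩
    · rintro w (hw | hw)
      · exact h3 w hw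
      · rw [Set.mem_singleton_iff.1 hw]
        exact hyW
    · rintro w (hw | hw)
      · exact h4 w hw
      · exact h5 w hw
  · obtain ⟨A', N', hA', hN', h5, h6, h7⟩ := id hI
    refine ⟨V, A', N', hA', hN', ?_, ?_, fun V' h8 h9 h10 => h10 (Or.inl ?_)⟩
    · rintro w (hw | hw)
      · exact hVA w hw
      · exact h5 w hw
    · rintro w (hw | hw)
      · exact hVN w hw
      · exact h6 w hw
    · rw [h7 V' h8 h9]
      exact hI

end residual

/-- With approximate roots the values are divisible. -/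
theorem Apx.pow {V : ValuationSubring K} (h : Apx V) (z : K) (hz : z ≠ 0) (M : ℕ) (hM : 0 < M) :
    ∃ y : K, y ≠ 0 ∧ V.valuation (z / y ^ M) = 1 := by
  wlog hzV : z ∈ V generalizing z
  · obtain ⟨y, hy0, hy⟩ := this z⁻¹ (inv_ne_zero hz) ((V.mem_or_inv_mem z).resolve_left hzV)
    refine ⟨y⁻¹, inv_ne_zero hy0, ?_⟩
    have h3 : z / y⁻¹ ^ M = (z⁻¹ / y ^ M)⁻¹ := by
      rw [inv_pow, div_inv_eq_mul, inv_div, div_inv_eq_mul, mul_comm]
    rw [h3, map_inv₀, hy, inv_one]
  · obtain ⟨y, hyV, hy⟩ := h (X ^ M - C z) (monic_X_pow_sub_C z hM.ne')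
      (by rw [natDegree_X_pow_sub_C]; exact hM) (fun i => by
        rw [coeff_sub, coeff_X_pow, coeff_C]
        refine sub_mem ?_ ?_
        · split_ifs
          exacts [V.one_mem, V.zero_mem]
        · split_ifs
          exacts [hzV, V.zero_mem]) z hz
    rw [eval_sub, eval_pow, eval_X, eval_C, sub_div, div_self hz] at hy
    have h1 : V.valuation (y ^ M / z) = 1 := by
      have h2 : y ^ M / z = 1 + (y ^ M / z - 1) := by ring
      rw [h2]
      have h3 := Valuation.map_add_eq_of_lt_right V.valuation (x := y ^ M / z - 1) (y := 1) (by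
        rw [map_one]; exact hy)
      rw [add_comm, h3, map_one]
    have hy0 : y ≠ 0 := by
      rintro rfl
      rw [zero_pow hM.ne', zero_div, map_zero] at h1
      exact zero_ne_one h1
    refine ⟨y, hy0, ?_⟩
    rw [← inv_div, map_inv₀, h1, inv_one]

theorem Apx.closed {V : ValuationSubring K} (h : Apx V) : IsAlgClosed (ResidueField V) := by
  refine closed_of_root fun g hg hg1 hgV => ?_
  obtain ⟨y, hyV, hy⟩ := h g hg hg1 hgV 1 one_ne_zero
  rw [div_one] at hy
  exact ⟨y, hyV, hy⟩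

/-- **The structure of the generic valuation rings**, with approximate roots. -/
theorem residual_apx {R : Type u} [CommRing R] (hR : HJ R) [Countable R] {ρ : R →+* K}
    {T : Set K} (h : Ess ρ T B) (hfr : ∀ z : K, Fr B z) [𝔭.IsPrime] :
    {V : Cen B 𝔭 | LogUnif V.1 B ∧ (∀ x y : K, Comm V.1 x y) ∧ (∀ z, mem V z → Rel 𝔭 V.1 z) ∧
      (Isol V ∨ Apx V.1)} ∈ @residual (Cen B 𝔭) (pt mem) := by
  classical
  let _ : TopologicalSpace (Cen B 𝔭) := pt mem
  have hnoe : IsNoetherianRing B := h.noeth hR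
  have hcB : Countable B := h.countable
  have hcK : Countable K := by
    have h1 : Function.Surjective (fun q : B × B => (q.1 : K) * (q.2 : K)⁻¹) := by
      intro z
      obtain ⟨a, ha, b, hb, -, rfl⟩ := hfr z
      exact ⟨(⟨a, ha⟩, ⟨b, hb⟩), rfl⟩
    exact h1.countable
  have hcKX : Countable K[X] := by
    rw [← Cardinal.mk_le_aleph0_iff]
    refine Polynomial.cardinalMk_le_max.trans ?_
    simp
  have hcomp : CompactSpace (Cen B 𝔭) := cen_compact
  have ht2 : T2Space (Cen B 𝔭) := cen_t2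
  have nd : ∀ {P : Cen B 𝔭 → Prop}, IsNowhereDense {V | ¬ P V} →
      {V | P V} ∈ residual (Cen B 𝔭) := by
    intro P hP
    have h1 : IsMeagre {V | ¬ P V} := hP.isMeagre
    have h2 : {V | ¬ P V}ᶜ ∈ residual (Cen B 𝔭) := h1
    convert h2 using 1
    ext V
    simp
  have e0 := residual_structure (𝔭 := 𝔭) hR h hfr
  have e12 : {V : Cen B 𝔭 | LogUnif V.1 B ∧ ∀ z, mem V z → Rel 𝔭 V.1 z} ∈
      residual (Cen B 𝔭) := by
    filter_upwards [e0] with V h1
    exact ⟨h1.1, h1.2.2.1⟩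
  have hD := dense_of_mem_residual e12
  have e5 : {V : Cen B 𝔭 | ∀ g : K[X], g.Monic → 0 < g.natDegree → ∀ c : K, c ≠ 0 → (Isol V ∨
      ((∀ i, g.coeff i ∈ V.1) → ∃ y ∈ V.1, V.1.valuation (g.eval y / c) < 1))} ∈
      residual (Cen B 𝔭) := by
    have h1 := eventually_countable_forall.2
      fun q : {g : K[X] // g.Monic ∧ 0 < g.natDegree} × {c : K // c ≠ 0} =>
        nd (nd_apx _ hD (fun V hV => hV) hfr q.1.2.1 q.1.2.2 q.2.2)
    filter_upwards [h1] with V hV g hg hg1 c hc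
    exact hV (⟨g, hg, hg1⟩, ⟨c, hc⟩)
  filter_upwards [e0, e5] with V h1 h5
  refine ⟨h1.1, h1.2.1, h1.2.2.1, ?_⟩
  by_cases hI : Isol V
  · exact Or.inl hI
  · exact Or.inr fun g hg hg1 hgV c hc => (h5 g hg hg1 c hc).resolve_left hI hgV

end Pool.Agent.V7H82.ZS
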