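import Pool.Agent.V7H82.ZS.Apx2
import Mathlib.FieldTheory.Isaacs

/-!
# A field with approximate roots is dense in its algebraic extensions
-/

set_option autoImplicit false

universe u v

namespace Pool.Agent.V7H82.ZS

open IsLocalRing Polynomial Pool.Agent.W418.LU2 Pool.Agent.TH188.QS Pool.Agent.V7H82.ZR

variable {K : Type u} [Field K] {L : Type v} [Field L] [Algebra K L]

/-- A common denominator. -/
theorem exists_den (V : ValuationSubring K) (s : Finset K) :
    ∃ d ∈ V, d ≠ 0 ∧ ∀ x ∈ s, x * d ∈ V := by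
  classical
  induction s using Finset.induction_on with
  | empty => exact ⟨1, V.one_mem, one_ne_zero, fun x hx => absurd hx (Finset.notMem_empty x)⟩
  | insert a s _ ih =>
    obtain ⟨d, hdV, hd0, hd⟩ := ih
    by_cases ha : a ∈ V
    · refine ⟨d, hdV, hd0, fun x hx => ?_⟩
      rcases Finset.mem_insert.1 hx with rfl | hx
      · exact V.mul_mem _ _ ha hdV
      · exact hd x hx
    · have ha' : a⁻¹ ∈ V := (V.mem_or_inv_mem a).resolve_left ha
      have ha0 : a ≠ 0 := by
        rintro rfl
        exact ha V.zero_mem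
      refine ⟨a⁻¹ * d, V.mul_mem _ _ ha' hdV, mul_ne_zero (inv_ne_zero ha0) hd0, fun x hx => ?_⟩
      rcases Finset.mem_insert.1 hx with rfl | hx
      · rw [mul_inv_cancel_left₀ ha0]
        exact hdV
      · have h1 : x * (a⁻¹ * d) = a⁻¹ * (x * d) := by ring
        rw [h1]
        exact V.mul_mem _ _ ha' (hd x hx)

/-- The scaled polynomial has coefficients in `V`. -/
theorem exists_scale (V : ValuationSubring K) {p : K[X]} (hp : p.Monic) :
    ∃ d : K, d ≠ 0 ∧ ∀ i, (p.scaleRoots d).coeff i ∈ V := by
  obtain ⟨d, hdV, hd0, hd⟩ := exists_den V p.coeffs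
  refine ⟨d, hd0, fun i => ?_⟩
  rw [coeff_scaleRoots]
  rcases lt_trichotomy i p.natDegree with hi | rfl | hi
  · by_cases h0 : p.coeff i = 0
    · rw [h0, zero_mul]
      exact V.zero_mem
    · obtain ⟨k, hk⟩ : ∃ k, p.natDegree - i = k + 1 := ⟨p.natDegree - i - 1, by omega⟩
      rw [hk, pow_succ', ← mul_assoc]
      exact V.mul_mem _ _ (hd _ (coeff_mem_coeffs h0)) (pow_mem hdV _)
  · rw [Nat.sub_self, pow_zero, mul_one, hp.coeff_natDegree]
    exact V.one_mem
  · rw [coeff_eq_zero_of_natDegree_lt hi, zero_mul]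
    exact V.zero_mem

lemma lt_iff {V : ValuationSubring K} {W : ValuationSubring L}
    (hW : W.comap (algebraMap K L) = V) (x : K) :
    V.valuation x < 1 ↔ W.valuation (algebraMap K L x) < 1 := by
  subst hW
  rw [← nu_iff, ← nu_iff]
  refine not_congr (and_congr ?_ ?_)
  · exact (_root_.map_ne_zero (algebraMap K L)).symm
  · rw [← map_inv₀]
    rfl

/-- An approximate root of an arbitrary monic polynomial. -/
theorem Apx.any {V : ValuationSubring K} (h : Apx V) {p : K[X]} (hp : p.Monic)
    (hp1 : 0 < p.natDegree) {c : K} (hc : c ≠ 0) : ∃ y : K, V.valuation (p.eval y / c) < 1 := by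
  obtain ⟨d, hd0, hd⟩ := exists_scale V hp
  obtain ⟨y, -, hy⟩ := h (p.scaleRoots d) ((monic_scaleRoots_iff d).2 hp)
    (by rw [natDegree_scaleRoots]; exact hp1) hd (d ^ p.natDegree * c)
    (mul_ne_zero (pow_ne_zero _ hd0) hc)
  refine ⟨y / d, ?_⟩
  have h1 : d * (y / d) = y := mul_div_cancel₀ _ hd0
  rw [← h1, scaleRoots_eval_mul, mul_div_mul_left _ _ (pow_ne_zero _ hd0)] at hy
  exact hy

/-- The values of an algebraic element are bounded. -/
theorem cofinal {V : ValuationSubring K} {W : ValuationSubring L}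
    (hW : W.comap (algebraMap K L) = V) {a : L} (ha : IsIntegral K a) :
    ∃ d : K, d ≠ 0 ∧ W.valuation (algebraMap K L d * a) ≤ 1 := by
  obtain ⟨p, hp, hpa⟩ := ha
  obtain ⟨d, hd0, hd⟩ := exists_scale V hp
  refine ⟨d, hd0, ?_⟩
  rw [W.valuation_le_one_iff]
  have h1 : eval₂ (algebraMap K L) (algebraMap K L d * a) (p.scaleRoots d) = 0 :=
    scaleRoots_eval₂_eq_zero _ hpa
  have hsub : (((p.scaleRoots d).map (algebraMap K L)).coeffs : Set L) ⊆ W.toSubring := by
    intro c hc
    obtain ⟨i, -, rfl⟩ := mem_coeffs_iff.1 hc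
    rw [coeff_map]
    have h2 := hd i
    rw [← hW] at h2
    exact h2
  have hint : IsIntegral W (algebraMap K L d * a) := by
    refine ⟨((p.scaleRoots d).map (algebraMap K L)).toSubring W.toSubring hsub,
      (monic_toSubring _ _ _).2 (((monic_scaleRoots_iff d).2 hp).map _), ?_⟩
    have h3 := map_toSubring ((p.scaleRoots d).map (algebraMap K L)) W.toSubring hsub
    have h4 : eval (algebraMap K L d * a) ((p.scaleRoots d).map (algebraMap K L)) = 0 := by
      rw [eval_map]
      exact h1
    rw [← h3, eval_map] at h4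
    exact h4
  obtain ⟨y, hy⟩ := IsIntegrallyClosed.isIntegral_iff.1 hint
  rw [← hy]
  exact y.2

/-- One of the roots can be approximated. -/
theorem Apx.root {V : ValuationSubring K} (h : Apx V) [IsAlgClosed L] {W : ValuationSubring L}
    (hW : W.comap (algebraMap K L) = V) {p : K[X]} (hp : p.Monic) (hp1 : 0 < p.natDegree) :
    ∃ r : L, aeval r p = 0 ∧ ∀ γ : K, γ ≠ 0 → ∃ y : K,
      W.valuation (algebraMap K L y - r) < W.valuation (algebraMap K L γ) := by
  classical
  by_contra hcon
  push Not at hcon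
  have hpm : (p.map (algebraMap K L)).Monic := hp.map _
  have hsp : (p.map (algebraMap K L)).Splits := IsAlgClosed.splits _
  have hroot : ∀ r ∈ (p.map (algebraMap K L)).roots, aeval r p = 0 := by
    intro r hr
    rw [mem_roots hpm.ne_zero, IsRoot.def, eval_map] at hr
    exact hr
  choose! γ hγ0 hγ using hcon
  have hcard : (p.map (algebraMap K L)).roots.card = p.natDegree := by
    rw [← hsp.natDegree_eq_card_roots, hp.natDegree_map]
  have hne : (p.map (algebraMap K L)).roots.toFinset.Nonempty := by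
    rw [Multiset.toFinset_nonempty]
    intro h0
    rw [h0, Multiset.card_zero] at hcard
    omega
  obtain ⟨r₀, hr₀, hmin⟩ := Finset.exists_min_image (p.map (algebraMap K L)).roots.toFinset
    (fun r => W.valuation (algebraMap K L (γ r))) hne
  have hr₀' := hroot r₀ (Multiset.mem_toFinset.1 hr₀)
  have hg0 : γ r₀ ≠ 0 := hγ0 r₀ hr₀'
  obtain ⟨y, hy⟩ := h.any hp hp1 (pow_ne_zero p.natDegree hg0)
  rw [lt_iff hW, map_div₀, map_pow, map_div₀, map_pow] at hy
  have hprod : algebraMap K L (p.eval y) =
      ((p.map (algebraMap K L)).roots.map fun a => algebraMap K L y - a).prod := by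
    rw [← hsp.eval_eq_prod_roots_of_monic hpm, eval_map, eval₂_at_apply]
  have hle : ∀ s : Multiset L, (∀ r ∈ s, r ∈ (p.map (algebraMap K L)).roots) →
      W.valuation (algebraMap K L (γ r₀)) ^ s.card ≤
        W.valuation ((s.map fun a => algebraMap K L y - a).prod) := by
    intro s
    induction s using Multiset.induction_on with
    | empty => intro _; simp
    | cons a s ih =>
      intro hs
      rw [Multiset.card_cons, Multiset.map_cons, Multiset.prod_cons, map_mul, pow_succ']
      refine mul_le_mul' ?_ (ih fun r hr => hs r (Multiset.mem_cons_of_mem hr))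
      have ha := hs a (Multiset.mem_cons_self a s)
      exact (hmin a (Multiset.mem_toFinset.2 ha)).trans (hγ a (hroot a ha) y)
  have h1 := hle _ fun r hr => hr
  rw [hcard, ← hprod] at h1
  have h2 : 0 < W.valuation (algebraMap K L (γ r₀)) ^ p.natDegree := by
    rw [zero_lt_iff]
    exact pow_ne_zero _ ((_root_.map_ne_zero _).2 ((_root_.map_ne_zero _).2 hg0))
  rw [div_lt_one₀ h2] at hy
  exact absurd hy (not_lt.2 h1)

/-- The elements which are approximated by the ground field. -/
def densSub (K : Type u) [Field K] {L : Type v} [Field L] [Algebra K L]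
    (W : ValuationSubring L) : Subalgebra K L where
  carrier := {θ | ∀ c : L, c ≠ 0 → ∃ y : K, W.valuation (θ - algebraMap K L y) < W.valuation c}
  mul_mem' := by
    intro a b ha hb c hc
    have hpos : 0 < W.valuation c := zero_lt_iff.2 ((_root_.map_ne_zero _).2 hc)
    by_cases ha0 : a = 0
    · refine ⟨0, ?_⟩
      rw [ha0, zero_mul, map_zero, sub_zero, map_zero]
      exact hpos
    obtain ⟨z, hz⟩ := hb (c / a) (div_ne_zero hc ha0)
    have h1 : W.valuation (a * (b - algebraMap K L z)) < W.valuation c := by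
      rw [map_div₀, lt_div_iff₀ (zero_lt_iff.2 ((_root_.map_ne_zero _).2 ha0))] at hz
      rw [map_mul, mul_comm]
      exact hz
    by_cases hz0 : z = 0
    · refine ⟨0, ?_⟩
      rw [hz0, map_zero, sub_zero] at h1
      rw [map_zero, sub_zero]
      exact h1
    have hz0' : algebraMap K L z ≠ 0 := (_root_.map_ne_zero _).2 hz0
    obtain ⟨y, hy⟩ := ha (c / algebraMap K L z) (div_ne_zero hc hz0')
    have h2 : W.valuation (algebraMap K L z * (a - algebraMap K L y)) < W.valuation c := by
      rw [map_div₀, lt_div_iff₀ (zero_lt_iff.2 ((_root_.map_ne_zero _).2 hz0'))] at hy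
      rw [map_mul, mul_comm]
      exact hy
    refine ⟨y * z, ?_⟩
    have h3 : a * b - algebraMap K L (y * z) = a * (b - algebraMap K L z) +
        algebraMap K L z * (a - algebraMap K L y) := by
      rw [map_mul]
      ring
    rw [h3]
    exact lt_of_le_of_lt (W.valuation.map_add _ _) (max_lt h1 h2)
  add_mem' := by
    intro a b ha hb c hc
    obtain ⟨y, hy⟩ := ha c hc
    obtain ⟨z, hz⟩ := hb c hc
    refine ⟨y + z, ?_⟩
    have h3 : a + b - algebraMap K L (y + z) = (a - algebraMap K L y) +
        (b - algebraMap K L z) := by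
      rw [map_add]
      ring
    rw [h3]
    exact lt_of_le_of_lt (W.valuation.map_add _ _) (max_lt hy hz)
  algebraMap_mem' := by
    intro r c hc
    refine ⟨r, ?_⟩
    rw [sub_self, map_zero]
    exact zero_lt_iff.2 ((_root_.map_ne_zero _).2 hc)

/-- A field with approximate roots is dense in its algebraic closure. -/
theorem Apx.dense_closure {V : ValuationSubring K} (h : Apx V) [IsAlgClosed L]
    [Algebra.IsAlgebraic K L] {W : ValuationSubring L} (hW : W.comap (algebraMap K L) = V)
    (θ c : L) (hc : c ≠ 0) :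
    ∃ y : K, W.valuation (θ - algebraMap K L y) < W.valuation c := by
  let D : IntermediateField K L := (densSub K W).toIntermediateField fun x hx =>
    (densSub K W).inv_mem_of_algebraic (x := ⟨x, hx⟩) (Algebra.IsAlgebraic.isAlgebraic x)
  have hclo : IsAlgClosure K D := by
    refine IsAlgClosure.of_exists_root fun p hp hirr => ?_
    obtain ⟨r, hr, hγ⟩ := h.root hW hp hirr.natDegree_pos
    have hrD : r ∈ D := by
      intro c hc
      obtain ⟨d, hd0, hd⟩ := cofinal hW (Algebra.IsIntegral.isIntegral (R := K) c⁻¹)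
      obtain ⟨y, hy⟩ := hγ d hd0
      refine ⟨y, ?_⟩
      rw [← neg_sub, Valuation.map_neg]
      refine lt_of_lt_of_le hy ?_
      rw [map_mul, map_inv₀] at hd
      rwa [← div_eq_mul_inv, div_le_one₀ (zero_lt_iff.2 ((_root_.map_ne_zero _).2 hc))] at hd
    refine ⟨⟨r, hrD⟩, Subtype.ext ?_⟩
    exact (aeval_algHom_apply D.val (⟨r, hrD⟩ : D) p).symm.trans hr
  have : IsAlgClosed D := hclo.isAlgClosed
  obtain ⟨⟨x, hx⟩, rfl⟩ := (IsAlgClosed.algebraMap_bijective_of_isIntegral (k := D) (K := L)).2 θ
  exact hx c hc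

/-- **A field with approximate roots is dense in its algebraic extensions.** -/
theorem Apx.dense {V : ValuationSubring K} (h : Apx V) [Algebra.IsAlgebraic K L]
    {W : ValuationSubring L} (hW : W.comap (algebraMap K L) = V) (θ c : L) (hc : c ≠ 0) :
    ∃ y : K, W.valuation (θ - algebraMap K L y) < W.valuation c := by
  obtain ⟨W', hWW', hloc⟩ := IsLocalRing.exists_factor_valuationRing
    ((algebraMap L (AlgebraicClosure L)).comp W.subtype)
  have h1 : W'.comap (algebraMap L (AlgebraicClosure L)) = W := by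
    ext x
    rw [ValuationSubring.mem_comap]
    constructor
    · intro hx
      by_contra hxW
      have hxi : x⁻¹ ∈ W := (W.mem_or_inv_mem x).resolve_left hxW
      have hx0 : x ≠ 0 := by
        rintro rfl
        exact hxW W.zero_mem
      have h2 : IsUnit (⟨x⁻¹, hxi⟩ : W) := by
        refine hloc.map_nonunit _ ?_
        refine IsUnit.of_mul_eq_one ⟨algebraMap L (AlgebraicClosure L) x, hx⟩ (Subtype.ext ?_)
        change algebraMap L (AlgebraicClosure L) x⁻¹ * algebraMap L (AlgebraicClosure L) x = 1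
        rw [← map_mul, inv_mul_cancel₀ hx0, map_one]
      obtain ⟨⟨d, hd⟩, hd'⟩ := isUnit_iff_exists_inv.1 h2
      have h3 : x⁻¹ * d = 1 := congrArg Subtype.val hd'
      apply hxW
      rw [← inv_inv x, ← eq_inv_of_mul_eq_one_right h3]
      exact hd
    · intro hx
      exact hWW' ⟨x, hx⟩
  have h2 : W'.comap (algebraMap K (AlgebraicClosure L)) = V := by
    rw [IsScalarTower.algebraMap_eq K L (AlgebraicClosure L), ← ValuationSubring.comap_comap, h1, hW]
  have : Algebra.IsAlgebraic K (AlgebraicClosure L) := Algebra.IsAlgebraic.trans K L _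
  obtain ⟨y, hy⟩ := h.dense_closure h2 (algebraMap L (AlgebraicClosure L) θ)
    (algebraMap L (AlgebraicClosure L) c) ((_root_.map_ne_zero _).2 hc)
  refine ⟨y, ?_⟩
  have hc' : 0 < W'.valuation (algebraMap L (AlgebraicClosure L) c) :=
    zero_lt_iff.2 ((_root_.map_ne_zero _).2 ((_root_.map_ne_zero _).2 hc))
  rw [← div_lt_one₀ hc', IsScalarTower.algebraMap_apply K L (AlgebraicClosure L), ← map_sub,
    ← map_div₀, ← map_div₀, ← lt_iff h1, map_div₀,
    div_lt_one₀ (zero_lt_iff.2 ((_root_.map_ne_zero _).2 hc))] at hy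
  exact hy

end Pool.Agent.V7H82.ZS
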