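import Pool.Agent.V7H82.ZS.Iso

/-!
# The structure of the generic valuation rings
-/

set_option autoImplicit false

universe u v

namespace Pool.Agent.V7H82.ZS

open IsLocalRing Polynomial Pool.Agent.W418.LU2 Pool.Agent.TH188.QS Pool.Agent.V7H82.ZR
open scoped Topology

variable {K : Type u} [Field K] {B : Subring K} {𝔭 : Ideal B}

/-- The values of two elements of the maximal ideal are commensurable. -/
def Comm (V : ValuationSubring K) (x y : K) : Prop :=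
  x ≠ 0 → y ≠ 0 → V.valuation x < 1 → V.valuation y < 1 →
    ∃ m n : ℕ, 0 < m ∧ 0 < n ∧ V.valuation (x ^ m / y ^ n) = 1

lemma comm_dvr {V : ValuationSubring K} (hV : V = ⊤ ∨ IsDiscreteValuationRing V) (x y : K) :
    Comm V x y := by
  intro hx0 hy0 hx hy
  rcases hV with rfl | hV
  · rw [← nu_iff] at hx
    exact absurd ⟨hx0, trivial⟩ hx
  · have hxV : x ∈ V := (V.valuation_le_one_iff _).1 hx.le
    have hyV : y ∈ V := (V.valuation_le_one_iff _).1 hy.le
    obtain ⟨ϖ, hϖ⟩ := IsDiscreteValuationRing.exists_irreducible V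
    have key : ∀ z : K, z ≠ 0 → z ∈ V → V.valuation z < 1 →
        ∃ n : ℕ, 0 < n ∧ V.valuation z = V.valuation (ϖ : K) ^ n := by
      intro z hz0 hzV hz
      have hz0' : (⟨z, hzV⟩ : V) ≠ 0 := fun h => hz0 (congrArg Subtype.val h)
      obtain ⟨n, hn⟩ := IsDiscreteValuationRing.associated_pow_irreducible hz0' hϖ
      obtain ⟨w, hw⟩ := hn.symm
      have h1 : (ϖ : K) ^ n * ((w : V) : K) = z := congrArg Subtype.val hw
      have h2 : V.valuation ((w : V) : K) = 1 := (V.valuation_eq_one_iff _).1 w.isUnit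
      have h3 : V.valuation z = V.valuation (ϖ : K) ^ n := by
        rw [← h1, map_mul, h2, mul_one, map_pow]
      refine ⟨n, Nat.pos_of_ne_zero ?_, h3⟩
      rintro rfl
      rw [pow_zero] at h3
      rw [h3] at hz
      exact lt_irrefl _ hz
    obtain ⟨a, ha, hxa⟩ := key x hx0 hxV hx
    obtain ⟨b, hb, hyb⟩ := key y hy0 hyV hy
    refine ⟨b, a, hb, ha, ?_⟩
    rw [map_div₀, map_pow, map_pow, hxa, hyb, ← pow_mul, ← pow_mul, mul_comm a b]
    refine div_self (pow_ne_zero _ ?_)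
    rw [Ne, map_eq_zero]
    exact fun h => hϖ.ne_zero (Subtype.ext h)

/-- Near each valuation ring there is a discrete one with the same centre. -/
theorem near_dvr [IsNoetherianRing B] (hfr : ∀ z : K, Fr B z) (V : Cen B 𝔭) {A N : Set K}
    (hA : A.Finite) (hN : N.Finite) (hAV : ∀ x ∈ A, mem V x) (hNV : ∀ x ∈ N, ¬ mem V x) :
    ∃ W : Cen B 𝔭, (∀ x ∈ A, mem W x) ∧ (∀ x ∈ N, ¬ mem W x) ∧
      (W.1 = ⊤ ∨ IsDiscreteValuationRing W.1) := by
  classical
  obtain ⟨V, hBV, hV⟩ := V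
  have hPV : lo V.toSubring B ≤ V.toSubring := lo_le hBV
  have hBP : B ≤ lo V.toSubring B := Pool.Agent.W418.LU2.le_lo _ _
  have hnoeP : IsNoetherianRing (lo V.toSubring B) := noeth_lo hBV
  obtain ⟨Z, hZ⟩ := (IsNoetherian.noetherian 𝔭 : 𝔭.FG)
  have hZ' : Ideal.span (Z : Set B) = 𝔭 := hZ
  let N₁ : Set K := (fun z : B => (z : K)⁻¹) '' {z | z ∈ Z ∧ z ≠ 0}
  have hN₁f : N₁.Finite := (Z.finite_toSet.subset fun z hz => hz.1).image _
  have hN₁V : ∀ z ∈ N₁, z ∉ V := by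
    rintro _ ⟨z, ⟨hz, hz0⟩, rfl⟩
    have h1 : z ∈ 𝔭 := by rw [← hZ']; exact Ideal.subset_span hz
    have h2 := (hV z).1 h1
    rw [← nu_iff] at h2
    exact fun h3 => h2 ⟨fun h4 => hz0 (Subtype.ext h4), h3⟩
  obtain ⟨W, hPW, hXW, hNW, hW⟩ := exists_near (B := lo V.toSubring B) (fun z => by
    obtain ⟨a, ha, b, hb, hb0, rfl⟩ := hfr z
    exact ⟨a, hBP ha, b, hBP hb, hb0, rfl⟩) hPV hA (hN.union hN₁f) hAV (by
      rintro z (hz | hz)
      · exact hNV z hz
      · exact hN₁V z hz)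
  have hcen := cen_of hBV hV hPW (fun b hb => by
    rw [← hZ'] at hb
    induction hb using Submodule.span_induction with
    | mem z hz =>
      rw [← nu_iff]
      rintro ⟨h0, h1⟩
      exact hNW _ (Or.inr ⟨z, ⟨hz, fun h2 => h0 (by rw [h2]; rfl)⟩, rfl⟩) h1
    | zero =>
      rw [ZeroMemClass.coe_zero, map_zero]
      exact zero_lt_one
    | add a b _ _ ha hb =>
      rw [Subring.coe_add]
      exact lt_of_le_of_lt (W.valuation.map_add _ _) (max_lt ha hb)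
    | smul c a _ ha =>
      rw [smul_eq_mul, Subring.coe_mul, map_mul]
      have h1 := (W.valuation_le_one_iff _).2 (hPW (hBP c.2))
      calc W.valuation (c : K) * W.valuation (a : K) ≤ 1 * W.valuation (a : K) :=
            mul_le_mul_left h1 _
        _ = W.valuation (a : K) := one_mul _
        _ < 1 := ha)
  exact ⟨⟨W, hcen⟩, hXW, fun x hx => hNW x (Or.inl hx), hW⟩

/-- An open condition. -/
lemma open_lt (V : Cen B 𝔭) {w : K} (h : V.1.valuation w < 1) :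
    ∃ N' : Set K, N'.Finite ∧ (∀ x ∈ N', ¬ mem V x) ∧
      ∀ W : Cen B 𝔭, (∀ x ∈ N', ¬ mem W x) → W.1.valuation w < 1 := by
  by_cases hw : w = 0
  · refine ⟨∅, Set.finite_empty, fun x hx => hx.elim, fun W _ => ?_⟩
    rw [hw, map_zero]
    exact zero_lt_one
  · refine ⟨{w⁻¹}, Set.finite_singleton _, ?_, fun W hW => ?_⟩
    · intro x hx hxV
      rw [Set.mem_singleton_iff] at hx
      subst hx
      rw [← nu_iff] at h
      exact h ⟨hw, hxV⟩
    · rw [← nu_iff]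
      exact fun h1 => hW _ rfl h1.2

lemma open_one {V : Cen B 𝔭} {w : K} (h : V.1.valuation w = 1) :
    ∃ A' : Set K, A'.Finite ∧ (∀ x ∈ A', mem V x) ∧
      ∀ W : Cen B 𝔭, (∀ x ∈ A', mem W x) → W.1.valuation w = 1 := by
  obtain ⟨h1, h2, h3⟩ := val_one' h
  refine ⟨{w, w⁻¹}, (Set.finite_singleton _).insert _, ?_, fun W hW => ?_⟩
  · rintro x (rfl | hx)
    · exact h1
    · rw [Set.mem_singleton_iff.1 hx]
      exact h3
  · exact val_one (hW _ (Or.inl rfl)) h2 (hW _ (Or.inr rfl))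

theorem nd_rel (z : K) : @IsNowhereDense (Cen B 𝔭) (pt mem)
    {V | ¬ (mem V z → Rel 𝔭 V.1 z)} := by
  refine pt_nowhereDense fun V A N hA hN h1 h2 => ?_
  by_cases hz : mem V z
  · obtain ⟨W, h3, h4, f, hf, hfv⟩ := near_alg V hA hN h1 h2 hz
    obtain ⟨N', hN', h5, h6⟩ := open_lt W hfv
    refine ⟨W, ∅, N', Set.finite_empty, hN', ?_, ?_, fun V' _ h7 h8 => h8 fun _ =>
      ⟨f, hf, h6 V' h7⟩⟩
    · rintro x (hx | hx)
      · exact h3 x hx
      · exact hx.elim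
    · rintro x (hx | hx)
      · exact h4 x hx
      · exact h5 x hx
  · refine ⟨V, ∅, {z}, Set.finite_empty, Set.finite_singleton _, ?_, ?_, fun V' _ h7 h8 =>
      h8 fun h9 => absurd h9 (h7 z rfl)⟩
    · rintro x (hx | hx)
      · exact h1 x hx
      · exact hx.elim
    · rintro x (hx | hx)
      · exact h2 x hx
      · rw [Set.mem_singleton_iff.1 hx]
        exact hz

theorem nd_comm [IsNoetherianRing B] (hfr : ∀ z : K, Fr B z) (x y : K) :
    @IsNowhereDense (Cen B 𝔭) (pt mem) {V | ¬ Comm V.1 x y} := by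
  refine pt_nowhereDense fun V A N hA hN h1 h2 => ?_
  obtain ⟨W, h3, h4, hW⟩ := near_dvr hfr V hA hN h1 h2
  have hc := comm_dvr hW x y
  by_cases hh : x ≠ 0 ∧ y ≠ 0
  swap
  · refine ⟨W, ∅, ∅, Set.finite_empty, Set.finite_empty, by simpa using h3, by simpa using h4,
      fun V' _ _ h7 => h7 fun hx hy => absurd ⟨hx, hy⟩ hh⟩
  obtain ⟨hx0, hy0⟩ := hh
  -- an open set where one of the elements is not in the maximal ideal
  have hcase : ∀ w : K, w ≠ 0 → ¬ W.1.valuation w < 1 → mem W w⁻¹ ∧ ∀ V' : Cen B 𝔭, mem V' w⁻¹ →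
      ¬ V'.1.valuation w < 1 := by
    intro w hw h
    rw [← nu_iff] at h
    refine ⟨(not_not.1 h).2, fun V' hV' h8 => ?_⟩
    rw [← nu_iff] at h8
    exact h8 ⟨hw, hV'⟩
  by_cases hx : W.1.valuation x < 1
  swap
  · obtain ⟨h5, h6⟩ := hcase x hx0 hx
    refine ⟨W, {x⁻¹}, ∅, Set.finite_singleton _, Set.finite_empty, ?_, by simpa using h4,
      fun V' h7 _ h8 => h8 fun _ _ h9 => absurd h9 (h6 V' (h7 _ rfl))⟩
    rintro w (hw | hw)
    · exact h3 w hw
    · rw [Set.mem_singleton_iff.1 hw]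
      exact h5
  by_cases hy : W.1.valuation y < 1
  swap
  · obtain ⟨h5, h6⟩ := hcase y hy0 hy
    refine ⟨W, {y⁻¹}, ∅, Set.finite_singleton _, Set.finite_empty, ?_, by simpa using h4,
      fun V' h7 _ h8 => h8 fun _ _ _ h9 => absurd h9 (h6 V' (h7 _ rfl))⟩
    rintro w (hw | hw)
    · exact h3 w hw
    · rw [Set.mem_singleton_iff.1 hw]
      exact h5
  obtain ⟨m, n, hm, hn, hmn⟩ := hc hx0 hy0 hx hy
  obtain ⟨A', hA', h5, h6⟩ := open_one hmn
  refine ⟨W, A', ∅, hA', Set.finite_empty, ?_, by simpa using h4,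
    fun V' h7 _ h8 => h8 fun _ _ _ _ => ⟨m, n, hm, hn, h6 V' h7⟩⟩
  rintro w (hw | hw)
  · exact h3 w hw
  · exact h5 w hw

section residual

variable (D : Set (Cen B 𝔭)) (hD : @Dense (Cen B 𝔭) (pt mem) D)
  (hDL : ∀ V ∈ D, LogUnif V.1 B ∧ ∀ z, mem V z → Rel 𝔭 V.1 z)

include hD hDL

theorem nd_pow [IsNoetherianRing B] (hfr : ∀ z : K, Fr B z) {z : K} (hz0 : z ≠ 0) {M : ℕ}
    (hM : 0 < M) : @IsNowhereDense (Cen B 𝔭) (pt mem)
      {V | ¬ (Isol V ∨ ∃ y : K, y ≠ 0 ∧ V.1.valuation (z / y ^ M) = 1)} := by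
  let _ : TopologicalSpace (Cen B 𝔭) := pt mem
  refine pt_nowhereDense fun V₁ A N hA hN h1 h2 => ?_
  obtain ⟨V, ⟨hVA, hVN⟩, hVD⟩ := hD.inter_open_nonempty _ (pt_isOpen_basic (m := mem) hA hN)
    ⟨V₁, h1, h2⟩
  obtain ⟨hLU, halg⟩ := hDL V hVD
  rcases near_pow hfr V hLU halg hA hN hVA hVN hz0 hM with ⟨W, h3, h4, y, hy0, hy⟩ | hI
  · obtain ⟨A', hA', h5, h6⟩ := open_one hy
    refine ⟨W, A', ∅, hA', Set.finite_empty, ?_, by simpa using h4,
      fun V' h7 _ h8 => h8 (Or.inr ⟨y, hy0, h6 V' h7⟩)⟩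
    rintro w (hw | hw)
    · exact h3 w hw
    · exact h5 w hw
  · obtain ⟨A', N', hA', hN', h5, h6, h7⟩ := id hI
    refine ⟨V, A', N', hA', hN', ?_, ?_, fun V' h8 h9 h10 => h10 (Or.inl ?_)⟩
    · rintro w (hw | hw)
      · exact hVA w hw
      · exact h5 w hw
    · rintro w (hw | hw)
      · exact hVN w hw
      · exact h6 w hw
    · rw [h7 V' h8 h9]
      exact hI

theorem nd_root [IsNoetherianRing B] (hfr : ∀ z : K, Fr B z) {g : K[X]} (hg : g.Monic)
    (hg1 : 0 < g.natDegree) : @IsNowhereDense (Cen B 𝔭) (pt mem)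
      {V | ¬ (Isol V ∨ ((∀ i, g.coeff i ∈ V.1) → ∃ y ∈ V.1, V.1.valuation (g.eval y) < 1))} := by
  let _ : TopologicalSpace (Cen B 𝔭) := pt mem
  refine pt_nowhereDense fun V₁ A N hA hN h1 h2 => ?_
  obtain ⟨V, ⟨hVA, hVN⟩, hVD⟩ := hD.inter_open_nonempty _ (pt_isOpen_basic (m := mem) hA hN)
    ⟨V₁, h1, h2⟩
  obtain ⟨hLU, halg⟩ := hDL V hVD
  by_cases hgV : ∀ i, g.coeff i ∈ V.1
  swap
  · push Not at hgV
    obtain ⟨i, hi⟩ := hgV
    refine ⟨V, ∅, {g.coeff i}, Set.finite_empty, Set.finite_singleton _, by simpa using hVA, ?_,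
      fun V' _ h8 h9 => h9 (Or.inr fun h10 => absurd (h10 i) (h8 _ rfl))⟩
    rintro w (hw | hw)
    · exact hVN w hw
    · rw [Set.mem_singleton_iff.1 hw]
      exact hi
  rcases near_root hfr V hLU halg hA hN hVA hVN hg hg1 hgV with ⟨W, h3, h4, y, hyW, hy⟩ | hI
  · obtain ⟨N', hN', h5, h6⟩ := open_lt W hy
    refine ⟨W, {y}, N', Set.finite_singleton _, hN', ?_, ?_,
      fun V' h7 h7' h8 => h8 (Or.inr fun _ => ⟨y, h7 _ rfl, h6 V' h7'⟩)⟩
    · rintro w (hw | hw)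
      · exact h3 w hw
      · rw [Set.mem_singleton_iff.1 hw]
        exact hyW
    · rintro w (hw | hw)
      · exact h4 w hw
      · exact h5 w hw
  · obtain ⟨A', N', hA', hN', h5, h6, h7⟩ := id hI
    refine ⟨V, A', N', hA', hN', ?_, ?_, fun V' h8 h9 h10 => h10 (Or.inl ?_)⟩
    · rintro w (hw | hw)
      · exact hVA w hw
      · exact h5 w hw
    · rintro w (hw | hw)
      · exact hVN w hw
      · exact h6 w hw
    · rw [h7 V' h8 h9]
      exact hI

end residual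

/-- The residue field is algebraically closed. -/
theorem closed_of_root {V : ValuationSubring K} (h : ∀ g : K[X], g.Monic → 0 < g.natDegree →
    (∀ i, g.coeff i ∈ V) → ∃ y ∈ V, V.valuation (g.eval y) < 1) :
    IsAlgClosed (ResidueField V) := by
  refine IsAlgClosed.of_exists_root _ fun p hp hirr => ?_
  have hpl : p ∈ lifts (residue V) := by
    rw [mem_lifts]
    exact map_surjective _ residue_surjective p
  obtain ⟨q, hq, hqd, hqm⟩ := lifts_and_natDegree_eq_and_monic hpl hp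
  obtain ⟨y, hyV, hy⟩ := h (q.map V.subtype) (hqm.map _) (by
    rw [hqm.natDegree_map, hqd]
    exact hirr.natDegree_pos) (fun i => by
      rw [coeff_map]
      exact (q.coeff i).2)
  refine ⟨residue V ⟨y, hyV⟩, ?_⟩
  rw [← hq, eval_map, eval₂_hom, residue_eq_zero_iff]
  have h1 : ((q.eval ⟨y, hyV⟩ : V) : K) = (q.map V.subtype).eval y := by
    rw [eval_map]
    exact (hom_eval₂ q (RingHom.id V) V.subtype ⟨y, hyV⟩).trans rfl
  rw [← h1] at hy
  exact (V.valuation_lt_one_iff _).2 hy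

/-- **The structure of the generic valuation rings.** -/
theorem residual_structure {R : Type u} [CommRing R] (hR : HJ R) [Countable R] {ρ : R →+* K}
    {T : Set K} (h : Ess ρ T B) (hfr : ∀ z : K, Fr B z) [𝔭.IsPrime] :
    {V : Cen B 𝔭 | LogUnif V.1 B ∧ (∀ x y : K, Comm V.1 x y) ∧ (∀ z, mem V z → Rel 𝔭 V.1 z) ∧
      (Isol V ∨ ((∀ z : K, z ≠ 0 → ∀ M : ℕ, 0 < M → ∃ y : K, y ≠ 0 ∧
        V.1.valuation (z / y ^ M) = 1) ∧ IsAlgClosed (ResidueField V.1)))} ∈
      @residual (Cen B 𝔭) (pt mem) := by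
  classical
  let _ : TopologicalSpace (Cen B 𝔭) := pt mem
  have hnoe : IsNoetherianRing B := h.noeth hR
  have hcB : Countable B := h.countable
  have hcK : Countable K := by
    have h1 : Function.Surjective (fun q : B × B => (q.1 : K) * (q.2 : K)⁻¹) := by
      intro z
      obtain ⟨a, ha, b, hb, -, rfl⟩ := hfr z
      exact ⟨(⟨a, ha⟩, ⟨b, hb⟩), rfl⟩
    exact h1.countable
  have hcKX : Countable K[X] := by
    rw [← Cardinal.mk_le_aleph0_iff]
    refine Polynomial.cardinalMk_le_max.trans ?_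
    simp
  have hcomp : CompactSpace (Cen B 𝔭) := cen_compact
  have ht2 : T2Space (Cen B 𝔭) := cen_t2
  have e1 : {V : Cen B 𝔭 | LogUnif V.1 B} ∈ residual (Cen B 𝔭) := by
    have h1 : IsMeagre {V : Cen B 𝔭 | ¬ LogUnif V.1 B} := cen_meagre hR h
    have h2 : {V : Cen B 𝔭 | ¬ LogUnif V.1 B}ᶜ ∈ residual (Cen B 𝔭) := h1
    convert h2 using 1
    ext V
    simp
  have nd : ∀ {P : Cen B 𝔭 → Prop}, IsNowhereDense {V | ¬ P V} →
      {V | P V} ∈ residual (Cen B 𝔭) := by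
    intro P hP
    have h1 : IsMeagre {V | ¬ P V} := hP.isMeagre
    have h2 : {V | ¬ P V}ᶜ ∈ residual (Cen B 𝔭) := h1
    convert h2 using 1
    ext V
    simp
  have e2 : {V : Cen B 𝔭 | ∀ z, mem V z → Rel 𝔭 V.1 z} ∈ residual (Cen B 𝔭) := by
    have h1 := eventually_countable_forall.2 fun z : K => nd (nd_rel (B := B) (𝔭 := 𝔭) z)
    exact h1
  have e3 : {V : Cen B 𝔭 | ∀ x y : K, Comm V.1 x y} ∈ residual (Cen B 𝔭) := by
    have h1 := eventually_countable_forall.2 fun q : K × K =>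
      nd (nd_comm (B := B) (𝔭 := 𝔭) hfr q.1 q.2)
    filter_upwards [h1] with V hV x y
    exact hV (x, y)
  have e12 : {V : Cen B 𝔭 | LogUnif V.1 B ∧ ∀ z, mem V z → Rel 𝔭 V.1 z} ∈
      residual (Cen B 𝔭) := by
    filter_upwards [e1, e2] with V h1 h2
    exact ⟨h1, h2⟩
  have hD := dense_of_mem_residual e12
  have e4 : {V : Cen B 𝔭 | ∀ z : K, z ≠ 0 → ∀ M : ℕ, 0 < M → (Isol V ∨ ∃ y : K, y ≠ 0 ∧
      V.1.valuation (z / y ^ M) = 1)} ∈ residual (Cen B 𝔭) := by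
    have h1 := eventually_countable_forall.2 fun q : {z : K // z ≠ 0} × {M : ℕ // 0 < M} =>
      nd (nd_pow _ hD (fun V hV => hV) hfr q.1.2 q.2.2)
    filter_upwards [h1] with V hV z hz M hM
    exact hV (⟨z, hz⟩, ⟨M, hM⟩)
  have e5 : {V : Cen B 𝔭 | ∀ g : K[X], g.Monic → 0 < g.natDegree → (Isol V ∨
      ((∀ i, g.coeff i ∈ V.1) → ∃ y ∈ V.1, V.1.valuation (g.eval y) < 1))} ∈
      residual (Cen B 𝔭) := by
    have h1 := eventually_countable_forall.2 fun q : {g : K[X] // g.Monic ∧ 0 < g.natDegree} =>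
      nd (nd_root _ hD (fun V hV => hV) hfr q.2.1 q.2.2)
    filter_upwards [h1] with V hV g hg hg1
    exact hV ⟨g, hg, hg1⟩
  filter_upwards [e1, e2, e3, e4, e5] with V h1 h2 h3 h4 h5
  refine ⟨h1, h3, h2, ?_⟩
  by_cases hI : Isol V
  · exact Or.inl hI
  · refine Or.inr ⟨fun z hz M hM => (h4 z hz M hM).resolve_left hI, closed_of_root ?_⟩
    intro g hg hg1 hgV
    exact (h5 g hg hg1).resolve_left hI hgV

theorem isol_iff (V : Cen B 𝔭) : Isol V ↔ IsOpen[pt mem] ({V} : Set (Cen B 𝔭)) := by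
  constructor
  · rintro ⟨A', N', hA', hN', h1, h2, h3⟩
    have h4 : ({V} : Set (Cen B 𝔭)) = {W | (∀ x ∈ A', mem W x) ∧ ∀ x ∈ N', ¬ mem W x} := by
      ext W
      constructor
      · intro hW
        rw [Set.mem_singleton_iff.1 hW]
        exact ⟨h1, h2⟩
      · rintro ⟨h5, h6⟩
        exact h3 W h5 h6
    rw [h4]
    exact pt_isOpen_basic hA' hN'
  · intro h
    obtain ⟨A', N', hA', hN', h1, h2, h3⟩ := pt_basic h (Set.mem_singleton V)
    exact ⟨A', N', hA', hN', h1, h2, fun W h4 h5 => h3 W h4 h5⟩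

end Pool.Agent.V7H82.ZS
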