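import Pool.Agent.V7H82.ZS.Near

/-!
# Isolated valuation rings and powers and roots near the other ones
-/

set_option autoImplicit false

universe u v

namespace Pool.Agent.V7H82.ZS

open IsLocalRing Polynomial Pool.Agent.W418.LU2 Pool.Agent.TH188.QS Pool.Agent.V7H82.ZR

variable {K : Type u} [Field K] {B : Subring K} {𝔭 : Ideal B}

lemma val_one {V : ValuationSubring K} {z : K} (h1 : z ∈ V) (h0 : z ≠ 0) (h2 : z⁻¹ ∈ V) :
    V.valuation z = 1 := by
  apply le_antisymm ((V.valuation_le_one_iff _).2 h1)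
  rw [← not_lt, ← nu_iff]
  exact fun h => h ⟨h0, h2⟩

lemma val_one' {V : ValuationSubring K} {z : K} (h : V.valuation z = 1) :
    z ∈ V ∧ z ≠ 0 ∧ z⁻¹ ∈ V := by
  have h1 : z ∈ V := (V.valuation_le_one_iff _).1 h.le
  have h2 : ¬ V.valuation z < 1 := by rw [h]; exact lt_irrefl _
  rw [← nu_iff] at h2
  obtain ⟨h3, h4⟩ := not_not.1 h2
  exact ⟨h1, h3, h4⟩

lemma mem_aeval {A : Subring K} (hBA : B ≤ A) {c : K} (hc : c ∈ A) (f : B[X]) :
    aeval c f ∈ A := by
  rw [aeval_eq_sum_range]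
  refine A.sum_mem fun i _ => ?_
  rw [Algebra.smul_def]
  exact A.mul_mem (hBA (f.coeff i).2) (A.pow_mem hc i)

/-- The relation of a unit has a constant term outside `𝔭`. -/
lemma rel_zero {V : ValuationSubring K}
    (hV : ∀ b : B, b ∈ 𝔭 ↔ V.valuation (b : K) < 1) {c : K} (hc : V.valuation c = 1) :
    ∀ (n : ℕ) (f : B[X]), f.natDegree ≤ n → (∃ i, f.coeff i ∉ 𝔭) → V.valuation (aeval c f) < 1 →
      ∃ f : B[X], f.coeff 0 ∉ 𝔭 ∧ V.valuation (aeval c f) < 1 := by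
  intro n
  induction n with
  | zero =>
    rintro f hf ⟨i, hi⟩ hv
    refine ⟨f, ?_, hv⟩
    rcases i with _ | i
    · exact hi
    · exfalso
      apply hi
      rw [coeff_eq_zero_of_natDegree_lt (by omega)]
      exact Ideal.zero_mem _
  | succ n ih =>
    rintro f hf ⟨i, hi⟩ hv
    by_cases h0 : f.coeff 0 ∈ 𝔭
    · refine ih (divX f) ?_ ?_ ?_
      · rw [natDegree_divX_eq_natDegree_tsub_one]
        omega
      · rcases i with _ | i
        · exact absurd h0 hi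
        · exact ⟨i, by rw [coeff_divX]; exact hi⟩
      · have h1 : aeval c (divX f) * c = aeval c f - (f.coeff 0 : K) := by
          have h2 : aeval c (divX f * X + C (f.coeff 0)) = aeval c f := by rw [divX_mul_X_add]
          rw [map_add, map_mul, aeval_X, aeval_C] at h2
          rw [← h2]
          change _ = _ + (f.coeff 0 : K) - (f.coeff 0 : K)
          ring
        have h2 : V.valuation (aeval c (divX f) * c) < 1 := by
          rw [h1]
          exact lt_of_le_of_lt (V.valuation.map_sub _ _) (max_lt hv ((hV _).1 h0))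
        rwa [map_mul, hc, mul_one] at h2
    · exact ⟨f, h0, hv⟩

/-- A neighbourhood of a valuation ring with algebraic residues whose elements dominate a given
local ring. -/
theorem iso_nhd [IsNoetherianRing B] (V : Cen B 𝔭) (halg : ∀ z, mem V z → Rel 𝔭 V.1 z)
    {T : Set K} (hT : T.Finite) (hTV : ∀ t ∈ T, mem V t) :
    ∃ A' N' : Set K, A'.Finite ∧ N'.Finite ∧ (∀ x ∈ A', mem V x) ∧ (∀ x ∈ N', ¬ mem V x) ∧
      ∀ W : Cen B 𝔭, (∀ x ∈ A', mem W x) → (∀ x ∈ N', ¬ mem W x) →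
        Dom W.1 (lo V.1.toSubring (Subring.closure ((B : Set K) ∪ T))) := by
  classical
  obtain ⟨V, hBV, hV⟩ := V
  change ∀ z, z ∈ V → _ at halg
  change ∀ t ∈ T, t ∈ V at hTV
  change ∃ A' N' : Set K, A'.Finite ∧ N'.Finite ∧ (∀ x ∈ A', x ∈ V) ∧ (∀ x ∈ N', ¬ x ∈ V) ∧
      ∀ W : Cen B 𝔭, (∀ x ∈ A', x ∈ W.1) → (∀ x ∈ N', ¬ x ∈ W.1) →
        Dom W.1 (lo V.toSubring (Subring.closure ((B : Set K) ∪ T)))
  set C := Subring.closure ((B : Set K) ∪ T) with hC
  have hCV : C ≤ V.toSubring := cl_le hBV hTV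
  have hBC : B ≤ C := fun b hb => Subring.subset_closure (Or.inl hb)
  have hnoe : IsNoetherianRing C := noeth_cl hT
  obtain ⟨M, hM, hmem, -⟩ := lo_loc (loc_V V) hCV
  obtain ⟨S, hS⟩ := (IsNoetherian.noetherian M : M.FG)
  have hS : Ideal.span (S : Set C) = M := hS
  refine ⟨T, (fun z : C => (z : K)⁻¹) '' {z | z ∈ S ∧ z ≠ 0}, hT,
    (S.finite_toSet.subset fun z hz => hz.1).image _, hTV, ?_, ?_⟩
  · rintro _ ⟨z, ⟨hz, hz0⟩, rfl⟩ h
    have h1 : z ∈ M := by rw [← hS]; exact Ideal.subset_span hz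
    exact (hmem z).1 h1 ⟨fun h4 => hz0 (Subtype.ext h4), h⟩
  · rintro ⟨W, hBW, hW⟩ hTW hNW
    change Dom W _
    change ∀ t ∈ T, t ∈ W at hTW
    change ∀ t ∈ _, t ∉ W at hNW
    have hCW : C ≤ W.toSubring := cl_le hBW hTW
    have hMW : ∀ c ∈ M, W.valuation ((c : C) : K) < 1 := by
      intro c hc
      rw [← hS] at hc
      induction hc using Submodule.span_induction with
      | mem z hz =>
        rw [← nu_iff]
        rintro ⟨h0, h1⟩
        exact hNW _ ⟨z, ⟨hz, fun h2 => h0 (by rw [h2]; rfl)⟩, rfl⟩ h1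
      | zero =>
        rw [ZeroMemClass.coe_zero, map_zero]
        exact zero_lt_one
      | add a b _ _ ha hb =>
        rw [Subring.coe_add]
        exact lt_of_le_of_lt (W.valuation.map_add _ _) (max_lt ha hb)
      | smul c a _ ha =>
        rw [smul_eq_mul, Subring.coe_mul, map_mul]
        have h1 := (W.valuation_le_one_iff _).2 (hCW c.2)
        calc W.valuation (c : K) * W.valuation (a : K) ≤ 1 * W.valuation (a : K) :=
              mul_le_mul_left h1 _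
          _ = W.valuation (a : K) := one_mul _
          _ < 1 := ha
    have hun : ∀ c ∈ C, c ≠ 0 → c⁻¹ ∈ V → W.valuation c = 1 := by
      intro c hc hc0 hcV
      apply le_antisymm ((W.valuation_le_one_iff _).2 (hCW hc))
      rw [← not_lt]
      intro hlt
      obtain ⟨f, hf, hfv⟩ := halg c (hCV hc)
      obtain ⟨f, hf0, hfv⟩ := rel_zero hV (val_one (hCV hc) hc0 hcV) _ f le_rfl hf hfv
      have h1 : (f.coeff 0 : K) = aeval c f - aeval c (divX f) * c := by
        have h2 : aeval c (divX f * X + Polynomial.C (f.coeff 0)) = aeval c f := by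
          rw [divX_mul_X_add]
        rw [map_add, map_mul, aeval_X, aeval_C] at h2
        rw [← h2]
        change _ = _ + (f.coeff 0 : K) - _
        ring
      have h2 : W.valuation (aeval c f) < 1 := by
        have h3 : aeval c f ∈ C := mem_aeval hBC hc f
        refine hMW ⟨_, h3⟩ ((hmem _).2 ?_)
        rw [nu_iff]
        exact hfv
      have h3 : W.valuation (aeval c (divX f) * c) < 1 := by
        rw [map_mul]
        have h4 := (W.valuation_le_one_iff _).2 (hCW (mem_aeval hBC hc (divX f)))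
        calc _ ≤ 1 * W.valuation c := mul_le_mul_left h4 _
          _ < 1 := by rw [one_mul]; exact hlt
      apply hf0
      rw [hW, h1]
      exact lt_of_le_of_lt (W.valuation.map_sub _ _) (max_lt h2 h3)
    have hval : ∀ a ∈ C, ∀ b ∈ C, b ≠ 0 → b⁻¹ ∈ V → W.valuation (a * b⁻¹) = W.valuation a := by
      intro a _ b hb hb0 hbV
      rw [map_mul, map_inv₀, hun b hb hb0 hbV, inv_one, mul_one]
    refine ⟨?_, ?_⟩
    · rintro _ ⟨a, ha, b, hb, hb0, hbV, rfl⟩
      change a * b⁻¹ ∈ W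
      rw [← W.valuation_le_one_iff, hval a ha b hb hb0 hbV, W.valuation_le_one_iff]
      exact hCW ha
    · rintro ⟨_, a, ha, b, hb, hb0, hbV, rfl⟩ hnu
      change W.valuation (a * b⁻¹) < 1
      rw [hval a ha b hb hb0 hbV]
      refine hMW ⟨a, ha⟩ ((hmem _).2 ?_)
      rintro ⟨ha0, haV⟩
      apply hnu
      rw [isUnit_lo_iff hCV]
      refine ⟨mul_ne_zero ha0 (inv_ne_zero hb0), ?_⟩
      change (a * b⁻¹)⁻¹ ∈ V
      rw [mul_inv, inv_inv]
      exact V.mul_mem _ _ haV (hCV hb)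

/-- The valuation rings which dominate a local ring of `V` over `B`. -/
theorem dom_near {V : Cen B 𝔭} {C : Subring K} (hBC : B ≤ C) (hCV : C ≤ V.1.toSubring)
    {W : ValuationSubring K} (hW : Dom W (lo V.1.toSubring C)) {A N : Set K}
    (hA : ∀ x ∈ A, x ∈ lo V.1.toSubring C) (hNV : ∀ x ∈ N, ¬ mem V x)
    (hN : ∀ x ∈ N, x⁻¹ ∈ lo V.1.toSubring C) :
    ∃ W' : Cen B 𝔭, W'.1 = W ∧ (∀ x ∈ A, mem W' x) ∧ (∀ x ∈ N, ¬ mem W' x) := by
  have hCP : C ≤ lo V.1.toSubring C := Pool.Agent.W418.LU2.le_lo _ _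
  have hBP : B ≤ lo V.1.toSubring C := hBC.trans hCP
  have hcen : ∀ b : B, b ∈ 𝔭 ↔ W.valuation (b : K) < 1 := by
    intro b
    rw [V.2.2 b, ← nu_iff]
    constructor
    · intro h
      refine hW.2 ⟨b, hBP b.2⟩ fun h1 => h ?_
      exact (isUnit_lo_iff hCV _).1 h1
    · intro h h1
      have h2 : (b : K)⁻¹ ∈ W.toSubring := hW.1 (inv_mem_lo hCV (hBP b.2) h1.1 h1.2)
      rw [← nu_iff] at h
      exact h ⟨h1.1, h2⟩
  refine ⟨⟨W, fun b hb => hW.1 (hBP hb), hcen⟩, rfl, fun x hx => hW.1 (hA x hx), fun x hx h => ?_⟩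
  have h0 : x ≠ 0 := by
    rintro rfl
    exact hNV 0 hx V.1.zero_mem
  have h1 := hW.2 ⟨x⁻¹, hN x hx⟩ fun h1 => by
    have h2 := ((isUnit_lo_iff hCV _).1 h1).2
    change x⁻¹⁻¹ ∈ V.1 at h2
    rw [inv_inv] at h2
    exact hNV x hx h2
  rw [← nu_iff] at h1
  refine h1 ⟨inv_ne_zero h0, ?_⟩
  rw [inv_inv]
  exact h

/-- `V` is an isolated point. -/
def Isol (V : Cen B 𝔭) : Prop :=
  ∃ A' N' : Set K, A'.Finite ∧ N'.Finite ∧ (∀ x ∈ A', mem V x) ∧ (∀ x ∈ N', ¬ mem V x) ∧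
    ∀ W : Cen B 𝔭, (∀ x ∈ A', mem W x) → (∀ x ∈ N', ¬ mem W x) → W = V

theorem isol_of_principal [IsNoetherianRing B] (hfr : ∀ z : K, Fr B z) (V : Cen B 𝔭)
    (halg : ∀ z, mem V z → Rel 𝔭 V.1 z) {C : Subring K} {T : Set K} (hT : T.Finite)
    (hC : C = Subring.closure ((B : Set K) ∪ T)) (hTV : ∀ t ∈ T, t ∈ V.1)
    [hP : IsRegularLocalRing (lo V.1.toSubring C)]
    (hm : (maximalIdeal (lo V.1.toSubring C)).IsPrincipal) : Isol V := by
  obtain ⟨A', N', h1, h2, h3, h4, h5⟩ := iso_nhd V halg hT hTV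
  rw [← hC] at h5
  have hBC : B ≤ C := by
    rw [hC]
    exact fun b hb => Subring.subset_closure (Or.inl hb)
  have hCV : C ≤ V.1.toSubring := by
    rw [hC]
    exact cl_le V.2.1 hTV
  have hfr' : ∀ z : K, Fr (lo V.1.toSubring C) z := by
    intro z
    obtain ⟨a, ha, b, hb, hb0, rfl⟩ := hfr z
    have hBP : B ≤ lo V.1.toSubring C := hBC.trans (Pool.Agent.W418.LU2.le_lo _ _)
    exact ⟨a, hBP ha, b, hBP hb, hb0, rfl⟩
  have hVd : Dom V.1 (lo V.1.toSubring C) := by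
    refine ⟨lo_le hCV, fun p hp => ?_⟩
    rw [isUnit_lo_iff hCV] at hp
    rw [← nu_iff]
    exact hp
  refine ⟨A', N', h1, h2, h3, h4, fun W hA hN => ?_⟩
  have h6 := h5 W hA hN
  apply Subtype.ext
  ext z
  rw [dom_unique hm hfr' h6 z, dom_unique hm hfr' hVd z]

/-- Near `V` an element gets an `M`-th root up to units, or `V` is isolated. -/
theorem near_pow [IsNoetherianRing B] (hfr : ∀ z : K, Fr B z) (V : Cen B 𝔭)
    (hLU : LogUnif V.1 B) (halg : ∀ z, mem V z → Rel 𝔭 V.1 z) {A N : Set K} (hA : A.Finite)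
    (hN : N.Finite) (hAV : ∀ x ∈ A, mem V x) (hNV : ∀ x ∈ N, ¬ mem V x) {z : K} (hz0 : z ≠ 0)
    {M : ℕ} (hM : 0 < M) :
    (∃ W : Cen B 𝔭, (∀ x ∈ A, mem W x) ∧ (∀ x ∈ N, ¬ mem W x) ∧
      ∃ y : K, y ≠ 0 ∧ W.1.valuation (z / y ^ M) = 1) ∨ Isol V := by
  wlog hz : z ∈ V.1 generalizing z
  · have hz' : z⁻¹ ∈ V.1 := (V.1.mem_or_inv_mem z).resolve_left hz
    rcases this (inv_ne_zero hz0) hz' with ⟨W, h1, h2, y, hy0, hy⟩ | h
    · refine Or.inl ⟨W, h1, h2, y⁻¹, inv_ne_zero hy0, ?_⟩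
      have h3 : z / y⁻¹ ^ M = (z⁻¹ / y ^ M)⁻¹ := by
        rw [inv_pow, div_inv_eq_mul, inv_div, div_inv_eq_mul, mul_comm]
      rw [h3, map_inv₀, hy, inv_one]
    · exact Or.inr h
  · let A₁ : Set K := insert z (A ∪ (fun y => y⁻¹) '' N)
    have hA₁ : A₁.Finite := (hA.union (hN.image _)).insert z
    have hA₁V : ∀ a ∈ A₁, a ∈ V.1 := by
      rintro a (rfl | ha | ⟨y, hy, rfl⟩)
      · exact hz
      · exact hAV a ha
      · exact (V.1.mem_or_inv_mem y).resolve_left (hNV y hy)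
    obtain ⟨C, T, hT, hC, hTV, hAP, hP, n, x, v, m, hx, hv, hzm⟩ :=
      exists_reg V.2.1 hfr hLU hA₁ hA₁V (z := z) (Or.inl rfl) hz0
    by_cases hm : (maximalIdeal (lo V.1.toSubring C)).IsPrincipal
    · exact Or.inr (isol_of_principal hfr V halg hT hC hTV hm)
    · have hBC : B ≤ C := by
        rw [hC]
        exact fun b hb => Subring.subset_closure (Or.inl hb)
      have hCV : C ≤ V.1.toSubring := by
        rw [hC]
        exact cl_le V.2.1 hTV
      obtain ⟨W, y, hW, hy0, hy⟩ := dom_pow hP hm hx (z := ⟨z, hAP z (Or.inl rfl)⟩) hv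
        (Subtype.ext hzm) hM
      obtain ⟨W', rfl, h1, h2⟩ := dom_near (A := A) (N := N) hBC hCV hW
        (fun x hx => hAP x (Or.inr (Or.inl hx))) hNV
        (fun x hx => hAP _ (Or.inr (Or.inr ⟨x, hx, rfl⟩)))
      exact Or.inl ⟨W', h1, h2, y, hy0, hy⟩

/-- Near `V` a monic polynomial gets a root modulo the maximal ideal, or `V` is isolated. -/
theorem near_root [IsNoetherianRing B] (hfr : ∀ z : K, Fr B z) (V : Cen B 𝔭)
    (hLU : LogUnif V.1 B) (halg : ∀ z, mem V z → Rel 𝔭 V.1 z) {A N : Set K} (hA : A.Finite)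
    (hN : N.Finite) (hAV : ∀ x ∈ A, mem V x) (hNV : ∀ x ∈ N, ¬ mem V x) {g : K[X]}
    (hg : g.Monic) (hg1 : 0 < g.natDegree) (hgV : ∀ i, g.coeff i ∈ V.1) :
    (∃ W : Cen B 𝔭, (∀ x ∈ A, mem W x) ∧ (∀ x ∈ N, ¬ mem W x) ∧
      ∃ y ∈ W.1, W.1.valuation (g.eval y) < 1) ∨ Isol V := by
  let A₁ : Set K := insert 1 ((A ∪ (fun y => y⁻¹) '' N) ∪ (g.coeff '' (Set.Iic g.natDegree)))
  have hA₁ : A₁.Finite := ((hA.union (hN.image _)).union ((Set.finite_Iic _).image _)).insert 1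
  have hA₁V : ∀ a ∈ A₁, a ∈ V.1 := by
    rintro a (rfl | (ha | ⟨y, hy, rfl⟩) | ⟨i, -, rfl⟩)
    · exact V.1.one_mem
    · exact hAV a ha
    · exact (V.1.mem_or_inv_mem y).resolve_left (hNV y hy)
    · exact hgV i
  obtain ⟨C, T, hT, hC, hTV, hAP, hP, -⟩ :=
    exists_reg V.2.1 hfr hLU hA₁ hA₁V (z := 1) (Or.inl rfl) one_ne_zero
  by_cases hm : (maximalIdeal (lo V.1.toSubring C)).IsPrincipal
  · exact Or.inr (isol_of_principal hfr V halg hT hC hTV hm)
  · have hBC : B ≤ C := by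
      rw [hC]
      exact fun b hb => Subring.subset_closure (Or.inl hb)
    have hCV : C ≤ V.1.toSubring := by
      rw [hC]
      exact cl_le V.2.1 hTV
    have hcoef : ∀ i, g.coeff i ∈ lo V.1.toSubring C := by
      intro i
      by_cases hi : i ≤ g.natDegree
      · exact hAP _ (Or.inr (Or.inr ⟨i, hi, rfl⟩))
      · rw [coeff_eq_zero_of_natDegree_lt (by omega)]
        exact (lo V.1.toSubring C).zero_mem
    have hsub : (g.coeffs : Set K) ⊆ lo V.1.toSubring C := by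
      intro c hc
      obtain ⟨i, -, rfl⟩ := mem_coeffs_iff.1 hc
      exact hcoef i
    obtain ⟨W, y, hW, hyW, hy⟩ := dom_root hP hm
      (g := g.toSubring _ hsub) ((monic_toSubring _ _ _).2 hg) (by
        rw [natDegree_toSubring]; exact hg1)
    obtain ⟨W', rfl, h1, h2⟩ := dom_near (A := A) (N := N) hBC hCV hW
      (fun x hx => hAP x (Or.inr (Or.inl (Or.inl hx)))) hNV
      (fun x hx => hAP _ (Or.inr (Or.inl (Or.inr ⟨x, hx, rfl⟩))))
    refine Or.inl ⟨W', h1, h2, y, hyW, ?_⟩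
    have h3 : aeval y (g.toSubring _ hsub) = g.eval y := by
      conv_rhs => rw [← map_toSubring g _ hsub]
      rw [eval_map, aeval_def]
      rfl
    rw [← h3]
    exact hy

end Pool.Agent.V7H82.ZS
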