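import Pool.Agent.V7H82.ZR.Main

/-!
# Valuation rings dominating a local ring with a regular sequence of two elements
-/

set_option autoImplicit false

universe u v

namespace Pool.Agent.V7H82.ZS

open IsLocalRing Polynomial Pool.Agent.W418.LU2 Pool.Agent.TH188.QS Pool.Agent.V7H82.ZR

variable {K : Type u} [Field K] {P : Subring K} [IsLocalRing P]

/-- A polynomial with the root `z / s`, where `z`, `s` is a regular sequence, has all coefficients
in the maximal ideal. -/
theorem coeff_mem {z s : P} (hz : z ∈ maximalIdeal P) (hz0 : z ≠ 0) (hs0 : s ≠ 0)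
    (h : ∀ a : P, z ∣ a * s → z ∣ a) (hs : s ∈ maximalIdeal P) :
    ∀ (n : ℕ) (f : P[X]), f.natDegree ≤ n → aeval ((z : K) / (s : K)) f = 0 →
      ∀ i, f.coeff i ∈ maximalIdeal P := by
  have hz0' : (z : K) ≠ 0 := fun h => hz0 (Subtype.ext h)
  have hs0' : (s : K) ≠ 0 := fun h => hs0 (Subtype.ext h)
  have hpow : ∀ (N : ℕ) (a : P), z ∣ a * s ^ N → z ∣ a := by
    intro N
    induction N with
    | zero => intro a ha; simpa using ha
    | succ N ih =>
      intro a ha
      refine ih a (h _ ?_)
      rwa [mul_assoc, ← pow_succ]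
  intro n
  induction n with
  | zero =>
    intro f hf h0 i
    have h1 := eq_C_of_natDegree_le_zero hf
    rw [h1, aeval_C] at h0
    have h2 : f.coeff 0 = 0 := Subtype.ext h0
    rw [h1, h2, C_0, coeff_zero]
    exact Ideal.zero_mem _
  | succ n ih =>
    intro f hf h0
    have hdvd : z ∣ f.coeff 0 := by
      apply hpow (n + 1)
      refine ⟨- ∑ i ∈ Finset.range (n + 1), f.coeff (i + 1) * z ^ i * s ^ (n - i), ?_⟩
      apply Subtype.ext
      have h1 : ∑ i ∈ Finset.range (n + 1 + 1), ((f.coeff i : P) : K) * ((z : K) / (s : K)) ^ i = 0 := by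
        rw [aeval_eq_sum_range' (Nat.lt_succ_of_le hf)] at h0
        exact h0
      have h2 : (s : K) ^ (n + 1) * ∑ i ∈ Finset.range (n + 1 + 1),
          ((f.coeff i : P) : K) * ((z : K) / (s : K)) ^ i = 0 := by
        rw [h1, mul_zero]
      rw [Finset.sum_range_succ', mul_add, Finset.mul_sum] at h2
      have h3 : ∀ i ∈ Finset.range (n + 1), (s : K) ^ (n + 1) * (((f.coeff (i + 1) : P) : K) *
          ((z : K) / (s : K)) ^ (i + 1)) = (z : K) * ((f.coeff (i + 1) : P) * (z : K) ^ i *
            (s : K) ^ (n - i)) := by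
        intro i hi
        have hi' : n + 1 = (n - i) + (i + 1) := by
          have := Finset.mem_range.1 hi
          omega
        rw [hi', pow_add, div_pow]
        have h4 : n - i + (i + 1) - (i + 1) = n - i := by omega
        field_simp
        ring
      rw [Finset.sum_congr rfl h3, ← Finset.mul_sum, pow_zero, mul_one] at h2
      have h5 : ((- ∑ i ∈ Finset.range (n + 1), f.coeff (i + 1) * z ^ i * s ^ (n - i) : P) : K) =
          - ∑ i ∈ Finset.range (n + 1), ((f.coeff (i + 1) : P) : K) * (z : K) ^ i *
            (s : K) ^ (n - i) := by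
        push_cast
        rfl
      rw [Subring.coe_mul, Subring.coe_mul, h5, Subring.coe_pow]
      linear_combination h2
    obtain ⟨c', hc'⟩ := hdvd
    have hu0 : (z : K) / (s : K) ≠ 0 := div_ne_zero hz0' hs0'
    have hzs : (s : K) * ((z : K) / (s : K)) = z := mul_div_cancel₀ _ hs0'
    have hg : aeval ((z : K) / (s : K)) (divX f + C (s * c')) = 0 := by
      have h1 : aeval ((z : K) / (s : K)) (divX f * X + C (f.coeff 0)) = 0 := by
        rw [divX_mul_X_add, h0]
      rw [map_add, map_mul, aeval_X, aeval_C] at h1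
      rw [map_add, aeval_C]
      have h2 : (algebraMap P K) (f.coeff 0) = (z : K) * c' := by
        rw [hc']
        rfl
      have h3 : (algebraMap P K) (s * c') = (s : K) * c' := rfl
      rw [h2] at h1
      rw [h3]
      apply mul_right_cancel₀ hu0
      rw [zero_mul, add_mul]
      linear_combination h1 + (c' : K) * hzs
    have hdeg : (divX f + C (s * c')).natDegree ≤ n := by
      refine (natDegree_add_le _ _).trans (max_le ?_ ?_)
      · rw [natDegree_divX_eq_natDegree_tsub_one]
        omega
      · rw [natDegree_C]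
        omega
    have hall := ih _ hdeg hg
    intro i
    rcases i with _ | i
    · rw [hc']
      exact (maximalIdeal P).mul_mem_right _ hz
    · have h1 := hall i
      rw [coeff_add, coeff_divX] at h1
      have h2 : (C (s * c')).coeff i ∈ maximalIdeal P := by
        rw [coeff_C]
        split_ifs
        · exact (maximalIdeal P).mul_mem_right _ hs
        · exact Ideal.zero_mem _
      exact (Ideal.add_mem_iff_left _ h2).1 h1

/-- A valuation ring dominating `P` in which a monic polynomial has the root `z / s` modulo the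
maximal ideal. -/
theorem exists_dom {z s : P} (hz : z ∈ maximalIdeal P) (hz0 : z ≠ 0) (hs0 : s ≠ 0)
    (h : ∀ a : P, z ∣ a * s → z ∣ a) (hs : s ∈ maximalIdeal P) {g : P[X]} (hg : g.Monic)
    (hg1 : 0 < g.natDegree) :
    ∃ V : ValuationSubring K, P ≤ V.toSubring ∧
      (∀ p : P, p ∈ maximalIdeal P → V.valuation (p : K) < 1) ∧ (z : K) / (s : K) ∈ V ∧
      V.valuation (aeval ((z : K) / (s : K)) g) < 1 := by
  set u : K := (z : K) / (s : K) with hu
  let φ : P[X] →+* K := (aeval u : P[X] →ₐ[P] K).toRingHom
  let I : Ideal P[X] := (maximalIdeal P).map (C : P →+* P[X]) ⊔ Ideal.span {g}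
  let J : Ideal φ.range := I.map φ.rangeRestrict
  have hJ : J ≠ ⊤ := by
    intro h1
    have h2 : (1 : φ.range) ∈ J := by rw [h1]; trivial
    obtain ⟨e, he, he1⟩ := (Ideal.mem_map_iff_of_surjective _ φ.rangeRestrict_surjective).1 h2
    have h3 : aeval u (1 - e) = 0 := by
      have h4 : φ e = 1 := congrArg Subtype.val he1
      change φ (1 - e) = 0
      rw [map_sub, h4, map_one, sub_self]
    have h4 := coeff_mem hz hz0 hs0 h hs _ (1 - e) le_rfl h3
    let π : P[X] →+* (ResidueField P)[X] := mapRingHom (residue P)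
    have h5 : π (1 - e) = 0 := by
      ext i
      rw [coe_mapRingHom, coeff_map, coeff_zero]
      exact (residue_eq_zero_iff _).2 (h4 i)
    have h6 : π e = 1 := by
      rw [map_sub, map_one, sub_eq_zero] at h5
      exact h5.symm
    have h7 : π e ∈ I.map π := Ideal.mem_map_of_mem _ he
    have h8 : I.map π ≤ Ideal.span {π g} := by
      rw [Ideal.map_sup, sup_le_iff]
      constructor
      · rw [Ideal.map_map, Ideal.map_le_iff_le_comap]
        intro a ha
        have h9 : (π.comp C) a = 0 := by
          change π (C a) = 0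
          rw [coe_mapRingHom, map_C, (residue_eq_zero_iff _).2 ha, C_0]
        rw [Ideal.mem_comap, h9]
        exact Ideal.zero_mem _
      · rw [Ideal.map_span, Set.image_singleton]
    rw [h6] at h7
    have h9 := h8 h7
    rw [← Ideal.eq_top_iff_one, Ideal.span_singleton_eq_top] at h9
    have h10 : (π g).natDegree = 0 := natDegree_eq_zero_of_isUnit h9
    have h11 : (π g).natDegree = g.natDegree := hg.natDegree_map _
    omega
  obtain ⟨M, hM, hJM⟩ := Ideal.exists_le_maximal J hJ
  have hMp : M.IsPrime := hM.isPrime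
  obtain ⟨V, hV, hcen⟩ := cen_nonempty (B := φ.range) (𝔭 := M)
  have hmem : ∀ e : P[X], e ∈ I → V.valuation (φ e) < 1 := by
    intro e he
    exact (hcen (φ.rangeRestrict e)).1 (hJM (Ideal.mem_map_of_mem _ he))
  have hC : ∀ p : P, φ (C p) = p := by
    intro p
    change aeval u (C p) = _
    rw [aeval_C]
    rfl
  refine ⟨V, ?_, ?_, ?_, ?_⟩
  · intro p hp
    have h1 : φ (C ⟨p, hp⟩) ∈ V.toSubring := hV ⟨_, rfl⟩
    rwa [hC] at h1
  · intro p hp
    have h1 := hmem (C p) (Ideal.mem_sup_left (Ideal.mem_map_of_mem _ hp))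
    rwa [hC] at h1
  · have h1 : φ X ∈ V.toSubring := hV ⟨_, rfl⟩
    have h2 : φ X = u := aeval_X u
    rwa [h2] at h1
  · exact hmem g (Ideal.mem_sup_right (Ideal.mem_span_singleton_self _))

end Pool.Agent.V7H82.ZS
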