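import Pool.Agent.V7H82.ZS.Alg

/-!
# Regular local rings dominated by log uniformizable valuation rings
-/

set_option autoImplicit false

universe u v

namespace Pool.Agent.V7H82.ZS

open IsLocalRing Polynomial Pool.Agent.W418.LU2 Pool.Agent.TH188.QS Pool.Agent.V7H82.ZR

variable {K : Type u} [Field K] {B : Subring K} {𝔭 : Ideal B}

/-- The valuation ring dominates regular local rings in which a given element is a monomial. -/
theorem exists_reg {V : ValuationSubring K} (hBV : B ≤ V.toSubring) [IsNoetherianRing B]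
    (hfr : ∀ z : K, Fr B z) (hV : LogUnif V B) {A : Set K} (hA : A.Finite)
    (hAV : ∀ a ∈ A, a ∈ V) {z : K} (hzA : z ∈ A) (hz0 : z ≠ 0) :
    ∃ (C : Subring K) (T : Set K), T.Finite ∧ C = Subring.closure ((B : Set K) ∪ T) ∧
      (∀ t ∈ T, t ∈ V) ∧ (∀ a ∈ A, a ∈ lo V.toSubring C) ∧
      ∃ (_ : IsRegularLocalRing (lo V.toSubring C)) (n : ℕ) (x : Fin n → lo V.toSubring C)
        (v : lo V.toSubring C) (m : Fin n → ℕ), Ind x ∧ IsUnit v ∧
          z = ((v * ∏ i, x i ^ m i : lo V.toSubring C) : K) := by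
  classical
  have hzV : z ∈ V := hAV z hzA
  -- a common denominator
  obtain ⟨k, e, he⟩ := exists_fin_range hA
  obtain ⟨β, hβ, hβ0, -, hβe⟩ := comden (A := (⊤ : Subring K)) (B := B) (fun _ _ => trivial)
    (z := e) (fun i => by
      obtain ⟨a, ha, b, hb, hb0, h⟩ := hfr (e i)
      exact ⟨a, ha, b, hb, hb0, trivial, h⟩)
  have hβA : ∀ a ∈ A, a * β ∈ B := by
    intro a ha
    rw [← he] at ha
    obtain ⟨i, rfl⟩ := ha
    exact hβe i
  let βB : B := ⟨β, hβ⟩
  have hβB0 : βB ≠ 0 := fun h => hβ0 (congrArg Subtype.val h)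
  let zb : B := ⟨z * β, hβA z hzA⟩
  have hzb0 : zb ≠ 0 := fun h => mul_ne_zero hz0 hβ0 (congrArg Subtype.val h)
  let S₀ : Set B := insert βB {c | ∃ a ∈ A, (c : K) = a * β}
  have hD : Ideal.span {zb} ≠ ⊥ := by
    rw [Ne, Ideal.span_singleton_eq_bot]
    exact hzb0
  have hI₀ : Ideal.span S₀ ≠ ⊥ := by
    intro h
    have h1 : βB ∈ Ideal.span S₀ := Ideal.subset_span (Or.inl rfl)
    rw [h, Ideal.mem_bot] at h1
    exact hβB0 h1
  obtain ⟨I₁, hI₁, f, hf, hf0, hfV, hpair⟩ := hV _ _ hD hI₀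
  have hf0' : (f : K) ≠ 0 := fun h => hf0 (Subtype.ext h)
  obtain ⟨I, hI⟩ : ∃ I : Ideal B, I = Ideal.span S₀ * I₁ := ⟨_, rfl⟩
  rw [← hI] at hf hfV hpair
  obtain ⟨S, hS⟩ := (IsNoetherian.noetherian I : I.FG)
  have hS : Ideal.span (S : Set B) = I := hS
  let T : Set K := (fun a : B => (a : K) / f) '' (S : Set B)
  have hT : T.Finite := S.finite_toSet.image _
  have hTV : ∀ t ∈ T, t ∈ V := by
    rintro _ ⟨a, ha, rfl⟩
    exact hfV a (by rw [← hS]; exact Ideal.subset_span ha)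
  have hCeq : chart B I f = Subring.closure ((B : Set K) ∪ T) := by
    apply le_antisymm
    · unfold chart
      rw [Subring.closure_le]
      rintro w (hw | ⟨a, ha, rfl⟩)
      · exact Subring.subset_closure (Or.inl hw)
      · rw [← hS] at ha
        exact gen_div (fun b hb => Subring.subset_closure (Or.inl hb))
          (fun a ha => Subring.subset_closure (Or.inr ⟨a, ha, rfl⟩)) ha
    · refine Subring.closure_mono ?_
      rintro w (hw | ⟨a, ha, rfl⟩)
      · exact Or.inl hw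
      · exact Or.inr ⟨a, by rw [← hS]; exact Ideal.subset_span ha, rfl⟩
  have hCV : chart B I f ≤ V.toSubring := by
    rw [hCeq]
    exact cl_le hBV hTV
  have hBC : B ≤ chart B I f := fun b hb => Subring.subset_closure (Or.inl hb)
  have hIC : ∀ c ∈ I, (c : K) / f ∈ chart B I f := fun c hc => Subring.subset_closure
    (Or.inr ⟨c, hc, rfl⟩)
  obtain ⟨C, hC⟩ : ∃ C : Subring K, C = chart B I f := ⟨_, rfl⟩
  rw [← hC] at hpair hCeq hCV hBC hIC
  obtain ⟨P, hPdef⟩ : ∃ P : Subring K, P = lo V.toSubring C := ⟨_, rfl⟩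
  have hun : ∀ y ∈ P, y ≠ 0 → y⁻¹ ∈ V → y⁻¹ ∈ P := by
    intro y hy hy0 hyV
    rw [hPdef] at hy ⊢
    have h1 : IsUnit (⟨y, hy⟩ : lo V.toSubring C) := (isUnit_lo_iff hCV _).2 ⟨hy0, hyV⟩
    obtain ⟨d, hd⟩ := isUnit_iff_exists_inv.1 h1
    have h2 : y * (d : K) = 1 := congrArg Subtype.val hd
    rw [← eq_inv_of_mul_eq_one_right h2]
    exact d.2
  have hCP : C ≤ P := by rw [hPdef]; exact Pool.Agent.W418.LU2.le_lo _ _
  have hPV : P ≤ V.toSubring := by rw [hPdef]; exact lo_le hCV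
  have hIP : ∀ c ∈ I, (c : K) / f ∈ P := fun c hc => hCP (hIC c hc)
  -- a unit
  have hgh : ∃ g ∈ Ideal.span S₀, ∃ h ∈ I₁, ¬ V.valuation ((g * h : B) / (f : K) : K) < 1 := by
    by_contra hcon
    push Not at hcon
    have h1 : ∀ c ∈ I, V.valuation ((c : K) / f) < 1 := by
      intro c hc
      rw [hI] at hc
      refine Submodule.mul_induction_on hc (fun g hg h hh => hcon g hg h hh) ?_
      intro a b ha hb
      rw [Subring.coe_add, add_div]
      exact lt_of_le_of_lt (V.valuation.map_add _ _) (max_lt ha hb)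
    have h2 := h1 f hf
    rw [div_self hf0', map_one] at h2
    exact lt_irrefl _ h2
  obtain ⟨g, hg, h, hh, hgh⟩ := hgh
  rw [← nu_iff] at hgh
  obtain ⟨hgh0, hghV⟩ := not_not.1 hgh
  have hmulI : ∀ g ∈ Ideal.span S₀, g * h ∈ I := fun g hg => by
    rw [hI]; exact Ideal.mul_mem_mul hg hh
  have hghP : (((g * h : B) : K) / f) ∈ P := hIP _ (hmulI g hg)
  have hghi : (((g * h : B) : K) / f)⁻¹ ∈ P := hun _ hghP hgh0 hghV
  have hgh0' : (g : K) * (h : K) ≠ 0 := by
    intro h1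
    apply hgh0
    rw [Subring.coe_mul, h1, zero_div]
  have hg0 : (g : K) ≠ 0 := left_ne_zero_of_mul hgh0'
  have hh0 : (h : K) ≠ 0 := right_ne_zero_of_mul hgh0'
  have hgP : ∀ g' ∈ Ideal.span S₀, (g' : K) / g ∈ P := by
    intro g' hg'
    have h1 : (g' : K) / g = (((g' * h : B) : K) / f) * (((g * h : B) : K) / f)⁻¹ := by
      rw [Subring.coe_mul, Subring.coe_mul]
      field_simp
    rw [h1]
    exact P.mul_mem (hIP _ (hmulI g' hg')) hghi
  have hβS : βB ∈ Ideal.span S₀ := Ideal.subset_span (Or.inl rfl)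
  have hβg : (β : K) / g ∈ P := hgP βB hβS
  have hgβ : (g : K) / β ∈ V.toSubring := by
    refine gen_div (f := β) hBV (S := S₀) ?_ hg
    rintro c (rfl | ⟨a, ha, hc⟩)
    · change β / β ∈ V
      rw [div_self hβ0]
      exact V.one_mem
    · rw [hc, mul_div_cancel_right₀ _ hβ0]
      exact hAV a ha
  have hβgi : (β / g : K)⁻¹ ∈ P := hun _ hβg (div_ne_zero hβ0 hg0) (by
      rw [inv_div]; exact hgβ)
  have hAP : ∀ a ∈ A, a ∈ P := by
    intro a ha
    have h1 : a = (a * β / g) * (β / g)⁻¹ := by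
      field_simp
    rw [h1]
    refine P.mul_mem ?_ hβgi
    exact hgP ⟨a * β, hβA a ha⟩ (Ideal.subset_span (Or.inr ⟨a, ha, rfl⟩))
  rw [← hPdef] at hpair
  obtain ⟨hP, n, x, s, hspan, hdim, hrad⟩ := hpair
  have hind : Ind x := ind_of_span hspan (by rw [hdim]; simp)
  let zP : P := ⟨z, hAP z hzA⟩
  have hdom : IsDomain P := inferInstance
  have hJ : Ideal.span {w : P | ∃ a ∈ Ideal.span {zb} * I, (w : K) = (a : K)} ≤
      Ideal.span {zP} := by
    rw [Ideal.span_le]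
    rintro w ⟨a, ha, haw⟩
    obtain ⟨i, hi, rfl⟩ := Ideal.mem_span_singleton_mul.1 ha
    rw [SetLike.mem_coe, Ideal.mem_span_singleton]
    refine ⟨⟨β * i, hCP (hBC (B.mul_mem hβ i.2))⟩, Subtype.ext ?_⟩
    rw [haw]
    change z * β * (i : K) = z * (β * i)
    ring
  have h1 : ∏ i ∈ s, x i ∈ (Ideal.span {w : P | ∃ a ∈ Ideal.span {zb} * I,
      (w : K) = (a : K)}).radical := by
    rw [hrad]
    exact Ideal.mem_span_singleton_self _
  obtain ⟨k, hk⟩ := Ideal.mem_radical_iff.1 h1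
  obtain ⟨c, hc⟩ := Ideal.mem_span_singleton.1 (hJ hk)
  have hprod : (∏ i ∈ s, x i) ^ k = 1 * ∏ i, x i ^ (if i ∈ s then k else 0) := by
    rw [one_mul, ← Finset.prod_pow, ← Finset.prod_subset (Finset.subset_univ s)]
    · exact Finset.prod_congr rfl fun i hi => by rw [if_pos hi]
    · intro i _ hi
      rw [if_neg hi, pow_zero]
  obtain ⟨v, m, hv, hvm⟩ := dvd_monomial (fun i => hind.prime i) _ _ 1 zP c isUnit_one le_rfl
    (hc.symm.trans hprod)
  subst hPdef
  exact ⟨C, T, hT, hCeq, hTV, hAP, hP, n, x, v, m, hind, hv, congrArg Subtype.val hvm⟩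

end Pool.Agent.V7H82.ZS
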