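import Pool.Agent.V7H82.ZS.Kap

/-!
# Valuation rings dominating a regular local ring of dimension at least two
-/

set_option autoImplicit false

universe u v

namespace Pool.Agent.V7H82.ZS

open IsLocalRing Polynomial Pool.Agent.W418.LU2 Pool.Agent.TH188.QS Pool.Agent.V7H82.ZR

theorem dvd_of_mono {B : Type u} [CommRing B] [IsDomain B] {ι : Type v} (x : ι → B)
    (m : ι → ℕ) {c : B} (s : Finset ι) (hx : ∀ i ∈ s, Prime (x i)) (hc : ∀ i ∈ s, ¬ x i ∣ c) :
    ∀ a, (∏ i ∈ s, x i ^ m i) ∣ a * c → (∏ i ∈ s, x i ^ m i) ∣ a := by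
  classical
  induction s using Finset.induction_on with
  | empty => intro a _; simp
  | insert i s hi ih =>
    intro a ha
    rw [Finset.prod_insert hi] at ha ⊢
    have hp := hx i (Finset.mem_insert_self _ _)
    have h1 : x i ^ m i ∣ a * c := (Dvd.intro _ rfl).trans ha
    have h2 : x i ^ m i ∣ a :=
      hp.pow_dvd_of_dvd_mul_right _ (hc i (Finset.mem_insert_self _ _)) h1
    obtain ⟨a', rfl⟩ := h2
    rw [mul_assoc] at ha
    have h3 := (mul_dvd_mul_iff_left (pow_ne_zero _ hp.ne_zero)).1 ha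
    exact mul_dvd_mul_left _ (ih (fun j hj => hx j (Finset.mem_insert_of_mem hj))
      (fun j hj => hc j (Finset.mem_insert_of_mem hj)) a' h3)

theorem exists_prime_to {B : Type u} [CommRing B] [IsRegularLocalRing B] {n : ℕ} {x : Fin n → B}
    (hx : Ind x) (hm : ¬ (maximalIdeal B).IsPrincipal) :
    ∃ t ∈ maximalIdeal B, t ≠ 0 ∧ ∀ i, ¬ x i ∣ t := by
  classical
  rcases n with _ | n
  · have h1 : maximalIdeal B ≠ ⊥ := fun h => hm (by rw [h]; exact bot_isPrincipal)
    obtain ⟨t, ht, ht0⟩ := Submodule.exists_mem_ne_zero_of_ne_bot h1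
    exact ⟨t, ht, ht0, fun i => i.elim0⟩
  · by_contra hcon
    push Not at hcon
    have hsub : (maximalIdeal B : Set B) ⊆ ⋃ i ∈ ((Finset.univ : Finset (Fin (n + 1))) :
        Set (Fin (n + 1))), (Ideal.span {x i} : Set B) := by
      intro t ht
      simp only [Finset.coe_univ, Set.mem_univ, Set.iUnion_true, Set.mem_iUnion, SetLike.mem_coe]
      by_cases ht0 : t = 0
      · exact ⟨0, by rw [ht0]; exact Ideal.zero_mem _⟩
      · obtain ⟨i, hi⟩ := hcon t ht ht0
        exact ⟨i, Ideal.mem_span_singleton.2 hi⟩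
    obtain ⟨i, -, hi⟩ := (Ideal.subset_union_prime (0 : Fin (n + 1)) 0 (fun i _ _ _ =>
      (Ideal.span_singleton_prime (hx.ne_zero i)).2 (hx.prime i))).1 hsub
    apply hm
    refine ⟨⟨x i, le_antisymm hi ?_⟩⟩
    rw [Ideal.submodule_span_eq, Ideal.span_singleton_le_iff_mem]
    exact hx.1 i

theorem exists_two {B : Type u} [CommRing B] [IsRegularLocalRing B]
    (hm : ¬ (maximalIdeal B).IsPrincipal) :
    ∃ z ∈ maximalIdeal B, ∃ s ∈ maximalIdeal B, Prime z ∧ ¬ z ∣ s := by
  classical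
  have h0 : Ind (Empty.elim : Empty → B) := ⟨fun i => i.elim, fun _ _ i => i.elim⟩
  obtain ⟨m, w, hw, hd⟩ := h0.extend
  have hw' : Ideal.span (Set.range w) = maximalIdeal B := by
    rw [← hw]
    congr 1
    ext b
    simp
  have hind : Ind w := ind_of_span hw' (by
    rw [hd]
    simp)
  rcases m with _ | _ | m
  · exfalso
    apply hm
    rw [← hw']
    have h1 : Set.range w = ∅ := Set.range_eq_empty _
    rw [h1, Ideal.span_empty]
    exact bot_isPrincipal
  · exfalso
    apply hm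
    have h1 : Set.range w = {w 0} := by
      ext b
      constructor
      · rintro ⟨i, rfl⟩
        have hi : i = 0 := Fin.ext (by omega)
        rw [hi]
        exact Set.mem_singleton _
      · intro hb
        exact ⟨0, (Set.mem_singleton_iff.1 hb).symm⟩
    rw [← hw', h1]
    exact ⟨⟨w 0, rfl⟩⟩
  · exact ⟨w 0, hind.1 0, w 1, hind.1 1, hind.prime 0, hind.not_dvd (by simp)⟩

variable {K : Type u} [Field K] {P : Subring K}

/-- `V` dominates `P`. -/
def Dom (V : ValuationSubring K) (P : Subring K) : Prop :=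
  P ≤ V.toSubring ∧ ∀ p : P, ¬ IsUnit p → V.valuation (p : K) < 1

/-- A monomial in the parameters becomes an `N`-th power up to a unit. -/
theorem dom_pow (hP : IsRegularLocalRing P) (hm : ¬ (maximalIdeal P).IsPrincipal) {n : ℕ}
    {x : Fin n → P} (hx : Ind x) {z v : P} (hv : IsUnit v) {m : Fin n → ℕ}
    (hz : z = v * ∏ i, x i ^ m i) {N : ℕ} (hN : 0 < N) :
    ∃ (V : ValuationSubring K) (y : K), Dom V P ∧ y ≠ 0 ∧ V.valuation ((z : K) / y ^ N) = 1 := by
  have hprod0 : ∏ i, x i ^ m i ≠ 0 :=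
    Finset.prod_ne_zero_iff.2 fun i _ => pow_ne_zero _ (hx.ne_zero i)
  have hz0 : z ≠ 0 := by
    rw [hz]
    exact mul_ne_zero hv.ne_zero hprod0
  by_cases hzu : IsUnit z
  · obtain ⟨V, hV, hcen⟩ := cen_nonempty (B := P) (𝔭 := maximalIdeal P)
    refine ⟨V, 1, ⟨hV, fun p hp => (hcen p).1 ((mem_maximalIdeal _).2 hp)⟩, one_ne_zero, ?_⟩
    rw [one_pow, div_one]
    apply le_antisymm ((V.valuation_le_one_iff _).2 (hV z.2))
    rw [← not_lt]
    intro h1
    exact (mem_maximalIdeal _).1 ((hcen z).2 h1) hzu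
  · have hzm : z ∈ maximalIdeal P := (mem_maximalIdeal _).2 hzu
    obtain ⟨t, htm, ht0, ht⟩ := exists_prime_to hx hm
    have hs0 : t ^ N ≠ 0 := pow_ne_zero _ ht0
    have hsm : t ^ N ∈ maximalIdeal P := Ideal.pow_mem_of_mem _ htm _ hN
    have hdiv : ∀ a : P, z ∣ a * t ^ N → z ∣ a := by
      intro a ha
      rw [hz, hv.mul_left_dvd] at ha ⊢
      exact dvd_of_mono x m Finset.univ (fun i _ => hx.prime i)
        (fun i _ h => ht i ((hx.prime i).dvd_of_dvd_pow h)) a ha
    obtain ⟨V, hPV, hdom, huV, hu1⟩ := exists_dom hzm hz0 hs0 hdiv hsm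
      (g := X - C 1) (monic_X_sub_C 1) (by rw [natDegree_X_sub_C]; exact one_pos)
    refine ⟨V, (t : K), ⟨hPV, fun p hp => hdom p ((mem_maximalIdeal _).2 hp)⟩,
      fun h => ht0 (Subtype.ext h), ?_⟩
    rw [map_sub, aeval_X, aeval_C, map_one, Subring.coe_pow] at hu1
    have h1 : V.valuation ((z : K) / (t : K) ^ N) = V.valuation (1 : K) := by
      rw [← V.valuation.map_one] at hu1
      exact Valuation.map_eq_of_sub_lt _ hu1
    rw [h1, map_one]

/-- A monic polynomial gets a root modulo the maximal ideal. -/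
theorem dom_root (hP : IsRegularLocalRing P) (hm : ¬ (maximalIdeal P).IsPrincipal) {g : P[X]}
    (hg : g.Monic) (hg1 : 0 < g.natDegree) :
    ∃ (V : ValuationSubring K) (y : K), Dom V P ∧ y ∈ V ∧ V.valuation (aeval y g) < 1 := by
  obtain ⟨z, hz, s, hs, hzp, hzs⟩ := exists_two hm
  have hdiv : ∀ a : P, z ∣ a * s → z ∣ a := fun a ha => (hzp.dvd_or_dvd ha).resolve_right hzs
  have hs0 : s ≠ 0 := by
    rintro rfl
    exact hzs (dvd_zero _)
  obtain ⟨V, hPV, hdom, huV, hu1⟩ := exists_dom hz hzp.ne_zero hs0 hdiv hs hg hg1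
  exact ⟨V, _, ⟨hPV, fun p hp => hdom p ((mem_maximalIdeal _).2 hp)⟩, huV, hu1⟩

/-- A noetherian local ring with principal maximal ideal is dominated by one valuation ring. -/
theorem dom_unique [IsLocalRing P] [IsNoetherianRing P] (hm : (maximalIdeal P).IsPrincipal)
    (hfr : ∀ z : K, Fr P z) {V : ValuationSubring K} (hV : Dom V P) (z : K) : z ∈ V ↔ z ∈ P := by
  refine ⟨fun hz => ?_, fun hz => hV.1 hz⟩
  have hval : ValuationRing P :=
    ((tfae_of_isNoetherianRing_of_isLocalRing_of_isDomain P).out 4 1).1 hm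
  obtain ⟨a, ha, b, hb, hb0, rfl⟩ := hfr z
  rcases ValuationRing.dvd_total (⟨a, ha⟩ : P) ⟨b, hb⟩ with ⟨c, hc⟩ | ⟨c, hc⟩
  · have hc' : b = a * (c : K) := congrArg Subtype.val hc
    have ha0 : a ≠ 0 := by
      rintro rfl
      exact hb0 (by rw [hc', zero_mul])
    have hc0 : (c : K) ≠ 0 := by
      intro h
      exact hb0 (by rw [hc', h, mul_zero])
    have h1 : a * b⁻¹ = (c : K)⁻¹ := by
      rw [hc', mul_inv, ← mul_assoc, mul_inv_cancel₀ ha0, one_mul]
    rw [h1] at hz ⊢
    by_cases hcu : IsUnit c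
    · obtain ⟨d, hd⟩ := isUnit_iff_exists_inv.1 hcu
      have h2 : (c : K) * (d : K) = 1 := congrArg Subtype.val hd
      rw [← eq_inv_of_mul_eq_one_right h2]
      exact d.2
    · have h2 := hV.2 c hcu
      have h3 := (V.valuation_le_one_iff _).2 hz
      exfalso
      have h4 : V.valuation ((c : K) * (c : K)⁻¹) < 1 := by
        rw [map_mul]
        calc _ ≤ V.valuation (c : K) * 1 := mul_le_mul_right h3 _
          _ < 1 := by rw [mul_one]; exact h2
      rw [mul_inv_cancel₀ hc0, map_one] at h4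
      exact lt_irrefl _ h4
  · have hc' : a = b * (c : K) := congrArg Subtype.val hc
    have h1 : a * b⁻¹ = (c : K) := by
      rw [hc', mul_comm b, mul_assoc, mul_inv_cancel₀ hb0, mul_one]
    rw [h1]
    exact c.2

end Pool.Agent.V7H82.ZS
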