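import Pool.Agent.V7H82.ZS.Gen

/-!
# There are no isolated valuation rings over the points of codimension at least two of normal schemes
-/

set_option autoImplicit false

universe u v

namespace Pool.Agent.V7H82.ZS

open IsLocalRing Polynomial Pool.Agent.W418.LU2 Pool.Agent.TH188.QS Pool.Agent.V7H82.ZR
open scoped Topology

/-- Zariski's main theorem at an isolated point of the closed fibre. -/
theorem zmt {P C : Type u} [CommRing P] [IsLocalRing P] [CommRing C] [IsNoetherianRing C]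
    [Algebra P C] [Algebra.FiniteType P C] (q : Ideal C) [hq : q.IsMaximal]
    (hq1 : ∀ p ∈ maximalIdeal P, algebraMap P C p ∈ q)
    (hq2 : ∀ 𝔯 : Ideal C, 𝔯.IsPrime → 𝔯 ≤ q → (∀ p ∈ maximalIdeal P, algebraMap P C p ∈ 𝔯) →
      𝔯 = q) : Algebra.ZariskisMainProperty P q := by
  classical
  have hqp : q.IsPrime := hq.isPrime
  let I : Ideal C := (maximalIdeal P).map (algebraMap P C)
  have hIq : I ≤ q := Ideal.map_le_iff_le_comap.2 hq1
  have hfin : I.minimalPrimes.Finite := Ideal.finite_minimalPrimes_of_isNoetherianRing C I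
  have hcom : ∀ 𝔯 : Ideal C, 𝔯.IsPrime → (∀ p ∈ maximalIdeal P, algebraMap P C p ∈ 𝔯) →
      𝔯.comap (algebraMap P C) = maximalIdeal P := by
    intro 𝔯 h𝔯 h
    exact ((maximalIdeal.isMaximal P).eq_of_le (Ideal.IsPrime.comap _).ne_top h).symm
  have hmin : ∀ 𝔯 ∈ I.minimalPrimes, 𝔯 ≠ q → ¬ 𝔯 ≤ q := by
    intro 𝔯 h𝔯 hne hle
    exact hne (hq2 𝔯 h𝔯.1.1 hle fun p hp => h𝔯.1.2 (Ideal.mem_map_of_mem _ hp))
  let s : Finset (Ideal C) := hfin.toFinset.erase q
  have hs : ¬ s.inf id ≤ q := by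
    rw [Ideal.IsPrime.inf_le' hqp]
    rintro ⟨𝔯, h𝔯, hle⟩
    rw [Finset.mem_erase, Set.Finite.mem_toFinset] at h𝔯
    exact hmin 𝔯 h𝔯.2 h𝔯.1 hle
  obtain ⟨f, hf, hfq⟩ := Set.not_subset.1 hs
  have hopen : ∀ 𝔯 : Ideal C, 𝔯.IsPrime → (∀ p ∈ maximalIdeal P, algebraMap P C p ∈ 𝔯) →
      f ∉ 𝔯 → 𝔯 = q := by
    intro 𝔯 h𝔯 h hf𝔯
    obtain ⟨𝔯₀, h𝔯₀, hle⟩ := Ideal.exists_minimalPrimes_le (I := I) (J := 𝔯)
      (Ideal.map_le_iff_le_comap.2 h)
    by_cases h1 : 𝔯₀ = q
    · rw [h1] at hle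
      exact (hq.eq_of_le h𝔯.ne_top hle).symm
    · exfalso
      apply hf𝔯
      apply hle
      have h2 : s.inf id ≤ 𝔯₀ := Finset.inf_le (f := id) (by
        rw [Finset.mem_erase, Set.Finite.mem_toFinset]
        exact ⟨h1, h𝔯₀⟩)
      exact h2 hf
  have hqf : Algebra.QuasiFiniteAt P q := by
    let x : PrimeSpectrum C := ⟨q, hqp⟩
    refine Algebra.QuasiFiniteAt.of_isOpen_singleton_fiber x ?_
    rw [isOpen_induced_iff]
    refine ⟨PrimeSpectrum.basicOpen f, (PrimeSpectrum.basicOpen f).2, ?_⟩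
    ext ⟨y, hy⟩
    constructor
    · intro h1
      have h2 : f ∉ y.asIdeal := h1
      have h3 : y.asIdeal.comap (algebraMap P C) = q.comap (algebraMap P C) :=
        congrArg PrimeSpectrum.asIdeal hy
      have h4 : y.asIdeal = q := by
        refine hopen _ y.isPrime (fun p hp => ?_) h2
        have h5 : p ∈ q.comap (algebraMap P C) := hq1 p hp
        rw [← h3] at h5
        exact h5
      have h5 : y = x := PrimeSpectrum.ext h4
      exact Subtype.ext h5
    · intro h1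
      have h5 : y = x := congrArg Subtype.val (Set.mem_singleton_iff.1 h1)
      change f ∉ y.asIdeal
      rw [h5]
      exact hfq
  exact Algebra.ZariskisMainProperty.of_finiteType q

variable {K : Type u} [Field K] {B : Subring K} {𝔭 : Ideal B}

lemma isol_nd {S : Set (Cen B 𝔭)} (hS : @IsNowhereDense (Cen B 𝔭) (pt mem) S) {V : Cen B 𝔭}
    (hV : Isol V) : V ∉ S := by
  let _ : TopologicalSpace (Cen B 𝔭) := pt mem
  intro hVS
  have h1 : IsOpen ({V} : Set (Cen B 𝔭)) := (isol_iff V).1 hV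
  have h2 : V ∈ interior (closure S) :=
    mem_interior.2 ⟨{V}, Set.singleton_subset_iff.2 (subset_closure hVS), h1, rfl⟩
  rw [IsNowhereDense] at hS
  rw [hS] at h2
  exact h2

/-- The isolated valuation rings are essentially of finite type over `B` and discrete. -/
theorem isol_ess {R : Type u} [CommRing R] (hR : HJ R) {ρ : R →+* K} {T₀ : Set K}
    (h : Ess ρ T₀ B) (hfr : ∀ z : K, Fr B z) [𝔭.IsPrime] (V : Cen B 𝔭) (hV : Isol V) :
    (V.1 = ⊤ ∨ IsDiscreteValuationRing V.1) ∧ (∀ z, mem V z → Rel 𝔭 V.1 z) ∧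
      ∃ T : Set K, T.Finite ∧ (∀ t ∈ T, t ∈ V.1) ∧
        V.1.toSubring = lo V.1.toSubring (Subring.closure ((B : Set K) ∪ T)) := by
  classical
  have hnoe : IsNoetherianRing B := h.noeth hR
  have halg : ∀ z, mem V z → Rel 𝔭 V.1 z := by
    intro z
    by_contra hcon
    exact isol_nd (nd_rel z) hV hcon
  have hLU : LogUnif V.1 B := by
    intro D I₀ hD hI₀
    by_contra hcon
    exact isol_nd (cen_nowhereDense hR h hD hI₀) hV hcon
  obtain ⟨A', N', hA', hN', h1, h2, h3⟩ := id hV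
  obtain ⟨W, h4, h5, hW⟩ := near_dvr hfr V hA' hN' h1 h2
  rw [h3 W h4 h5] at hW
  refine ⟨hW, halg, ?_⟩
  let A₁ : Set K := insert 1 (A' ∪ (fun y => y⁻¹) '' N')
  have hA₁ : A₁.Finite := (hA'.union (hN'.image _)).insert 1
  have hA₁V : ∀ a ∈ A₁, a ∈ V.1 := by
    rintro a (rfl | ha | ⟨y, hy, rfl⟩)
    · exact V.1.one_mem
    · exact h1 a ha
    · exact (V.1.mem_or_inv_mem y).resolve_left (h2 y hy)
  obtain ⟨C, T, hT, hC, hTV, hAP, hP, -⟩ :=
    exists_reg V.2.1 hfr hLU hA₁ hA₁V (z := 1) (Or.inl rfl) one_ne_zero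
  have hBC : B ≤ C := by
    rw [hC]
    exact fun b hb => Subring.subset_closure (Or.inl hb)
  have hCV : C ≤ V.1.toSubring := by
    rw [hC]
    exact cl_le V.2.1 hTV
  have huni : ∀ W : ValuationSubring K, Dom W (lo V.1.toSubring C) → W = V.1 := by
    intro W hWd
    obtain ⟨W', hW', h6, h7⟩ := dom_near (A := A') (N := N') hBC hCV hWd
      (fun x hx => hAP x (Or.inr (Or.inl hx))) h2
      (fun x hx => hAP _ (Or.inr (Or.inr ⟨x, hx, rfl⟩)))
    rw [← hW', h3 W' h6 h7]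
  have hm : (maximalIdeal (lo V.1.toSubring C)).IsPrincipal := by
    by_contra hm
    obtain ⟨z, hz, s, hs, hzp, hzs⟩ := exists_two hm
    have hdiv : ∀ a : lo V.1.toSubring C, z ∣ a * s → z ∣ a :=
      fun a ha => (hzp.dvd_or_dvd ha).resolve_right hzs
    have hs0 : s ≠ 0 := by
      rintro rfl
      exact hzs (dvd_zero _)
    obtain ⟨W₁, ha1, ha2, -, ha3⟩ := exists_dom hz hzp.ne_zero hs0 hdiv hs monic_X
      (by rw [natDegree_X]; exact one_pos)
    obtain ⟨W₂, hb1, hb2, -, hb3⟩ := exists_dom hz hzp.ne_zero hs0 hdiv hs (monic_X_sub_C 1)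
      (by rw [natDegree_X_sub_C]; exact one_pos)
    have e1 := huni W₁ ⟨ha1, fun p hp => ha2 p ((mem_maximalIdeal _).2 hp)⟩
    have e2 := huni W₂ ⟨hb1, fun p hp => hb2 p ((mem_maximalIdeal _).2 hp)⟩
    have e3 : W₁ = W₂ := e1.trans e2.symm
    rw [e3, aeval_X] at ha3
    rw [map_sub, aeval_X, aeval_C, map_one] at hb3
    have h8 : W₂.valuation ((z : K) / (s : K)) = 1 := by
      rw [← W₂.valuation.map_one] at hb3
      rw [Valuation.map_eq_of_sub_lt _ hb3, map_one]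
    rw [h8] at ha3
    exact lt_irrefl _ ha3
  have hfr' : ∀ z : K, Fr (lo V.1.toSubring C) z := by
    intro z
    obtain ⟨a, ha, b, hb, hb0, rfl⟩ := hfr z
    have hBP : B ≤ lo V.1.toSubring C := hBC.trans (Pool.Agent.W418.LU2.le_lo _ _)
    exact ⟨a, hBP ha, b, hBP hb, hb0, rfl⟩
  have hVd : Dom V.1 (lo V.1.toSubring C) := by
    refine ⟨lo_le hCV, fun p hp => ?_⟩
    rw [isUnit_lo_iff hCV] at hp
    rw [← nu_iff]
    exact hp
  refine ⟨T, hT, hTV, ?_⟩
  rw [← hC]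
  ext z
  exact dom_unique hm hfr' hVd z

/-- **No isolated points** over normal points of codimension at least two. -/
theorem no_isol {R : Type u} [CommRing R] (hR : HJ R) {ρ : R →+* K} {T₀ : Set K}
    (h : Ess ρ T₀ B) (hfr : ∀ z : K, Fr B z) [𝔭.IsPrime] [hn : IsIntegrallyClosed B]
    (hht : 1 < 𝔭.height) (V : Cen B 𝔭) : ¬ Isol V := by
  classical
  intro hV
  have hnoe : IsNoetherianRing B := h.noeth hR
  obtain ⟨hVd, halg, T, hT, hTV, hVlo⟩ := isol_ess hR h hfr V hV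
  obtain ⟨V, hBV, hcenV⟩ := V
  change V = ⊤ ∨ IsDiscreteValuationRing V at hVd
  change ∀ z, z ∈ V → Rel 𝔭 V z at halg
  change ∀ t ∈ T, t ∈ V at hTV
  change V.toSubring = lo V.toSubring (Subring.closure ((B : Set K) ∪ T)) at hVlo
  set P := lo V.toSubring B with hP
  have hPV : P ≤ V.toSubring := lo_le hBV
  have hBP : B ≤ P := Pool.Agent.W418.LU2.le_lo _ _
  have hloc : IsLocalRing P := isLocalRing_lo (loc_V V) hBV
  have hnoeP : IsNoetherianRing P := noeth_lo hBV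
  let C := Algebra.adjoin P T
  have hCV : C.toSubring ≤ V.toSubring := by
    have h1 : C ≤ ({ V.toSubring with algebraMap_mem' := fun p => hPV p.2 } : Subalgebra P K) := by
      apply Algebra.adjoin_le
      exact fun t ht => hTV t ht
    exact fun c hc => h1 hc
  have hft : Algebra.FiniteType P C :=
    (Subalgebra.fg_iff_finiteType _).1 ⟨hT.toFinset, by rw [hT.coe_toFinset]⟩
  have hnoeC : IsNoetherianRing C := Algebra.FiniteType.isNoetherianRing P _
  obtain ⟨q, hq, hmem, -⟩ := lo_loc (loc_V V) hCV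
  have hPC : P ≤ C.toSubring := fun p hp => C.algebraMap_mem ⟨p, hp⟩
  have hval : ∀ c : C.toSubring, c ∈ q ↔ V.valuation (c : K) < 1 := fun c => by
    rw [hmem, nu_iff]
  have hmax : Ideal.IsMaximal (α := C) q := by
    rw [Ideal.isMaximal_iff]
    refine ⟨fun h1 => hq.ne_top ((Ideal.eq_top_iff_one _).2 h1), fun J c hJ hc hcJ => ?_⟩
    have hc1 : V.valuation (c : K) = 1 := by
      apply le_antisymm ((V.valuation_le_one_iff _).2 (hCV c.2))
      rw [← not_lt]
      exact fun h1 => hc ((hval c).2 h1)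
    obtain ⟨f, hf, hfv⟩ := halg c (hCV c.2)
    obtain ⟨f, hf0, hfv⟩ := rel_zero hcenV hc1 _ f le_rfl hf hfv
    have hf0V : V.valuation (f.coeff 0 : K) = 1 := by
      apply le_antisymm ((V.valuation_le_one_iff _).2 (hBV (f.coeff 0).2))
      rw [← not_lt]
      exact fun h1 => hf0 ((hcenV _).2 h1)
    obtain ⟨-, hb0, hbV⟩ := val_one' hf0V
    have hbi : (f.coeff 0 : K)⁻¹ ∈ C.toSubring :=
      hPC (inv_mem_lo hBV (hBP (f.coeff 0).2) hb0 hbV)
    have hBC : B ≤ C.toSubring := hBP.trans hPC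
    let F : C := ⟨aeval (c : K) f, mem_aeval hBC c.2 f⟩
    let G : C := ⟨aeval (c : K) (divX f), mem_aeval hBC c.2 _⟩
    let β : C := ⟨(f.coeff 0 : K), hBC (f.coeff 0).2⟩
    let βi : C := ⟨(f.coeff 0 : K)⁻¹, hbi⟩
    have hF : F ∈ J := hJ ((hval F).2 hfv)
    have h1 : (1 : C) = βi * (F - G * c) := by
      apply Subtype.ext
      have h2 : aeval (c : K) (divX f * X + Polynomial.C (f.coeff 0)) = aeval (c : K) f := by
        rw [divX_mul_X_add]
      rw [map_add, map_mul, aeval_X, aeval_C] at h2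
      have h3 : (algebraMap B K) (f.coeff 0) = (f.coeff 0 : K) := rfl
      rw [h3] at h2
      change (1 : K) = (f.coeff 0 : K)⁻¹ * (aeval (c : K) f - aeval (c : K) (divX f) * (c : K))
      rw [← h2, add_sub_cancel_left, inv_mul_cancel₀ hb0]
    rw [h1]
    exact J.mul_mem_left _ (J.sub_mem hF (J.mul_mem_left _ hcJ))
  have hmP : ∀ p : P, p ∈ maximalIdeal P → V.valuation (p : K) < 1 := by
    intro p hp
    rw [mem_maximalIdeal, mem_nonunits_iff, isUnit_lo_iff hBV] at hp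
    rw [← nu_iff]
    exact hp
  have h𝔭0 : 𝔭 ≠ ⊥ := by
    rintro rfl
    rw [Ideal.height_bot] at hht
    exact absurd hht (by simp)
  obtain ⟨b, hb𝔭, hb0⟩ := Submodule.exists_mem_ne_zero_of_ne_bot h𝔭0
  have hb0' : (b : K) ≠ 0 := fun h1 => hb0 (Subtype.ext h1)
  have hq2 : ∀ 𝔯 : Ideal C, 𝔯.IsPrime → 𝔯 ≤ q →
      (∀ p ∈ maximalIdeal P, algebraMap P C p ∈ 𝔯) → 𝔯 = q := by
    intro 𝔯 h𝔯 hle hm𝔯
    refine le_antisymm hle fun c hc => ?_
    by_cases hc0 : (c : K) = 0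
    · have h1 : c = 0 := Subtype.ext hc0
      rw [h1]
      exact 𝔯.zero_mem
    obtain ⟨m, n, hm, hn, hmn⟩ := comm_dvr hVd (c : K) (b : K) hc0 hb0' ((hval c).1 hc)
      ((hcenV b).1 hb𝔭)
    have h1 : (c : K) ^ m / (b : K) ^ n ∈ V.toSubring := (val_one' hmn).1
    rw [hVlo] at h1
    obtain ⟨a, ha, s, hs, hs0, hsV, has⟩ := h1
    have hle' : Subring.closure ((B : Set K) ∪ T) ≤ C.toSubring := by
      rw [Subring.closure_le]
      rintro w (hw | hw)
      · exact hPC (hBP hw)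
      · exact Algebra.subset_adjoin hw
    have hbC : (b : K) ∈ C.toSubring := hPC (hBP b.2)
    have hb𝔯 : (⟨(b : K), hbC⟩ : C) ∈ 𝔯 := by
      refine hm𝔯 ⟨b, hBP b.2⟩ ?_
      rw [mem_maximalIdeal, mem_nonunits_iff, isUnit_lo_iff hBV]
      have h2 := (hcenV b).1 hb𝔭
      rw [← nu_iff] at h2
      exact h2
    have h2 : (⟨s, hle' hs⟩ : C) * c ^ m = ⟨a, hle' ha⟩ * ⟨(b : K), hbC⟩ ^ n := by
      apply Subtype.ext
      change s * (c : K) ^ m = a * (b : K) ^ n
      have h3 : (b : K) ^ n ≠ 0 := pow_ne_zero _ hb0'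
      rw [div_eq_iff h3] at has
      rw [has]
      field_simp
    have h3 : (⟨s, hle' hs⟩ : C) * c ^ m ∈ 𝔯 := by
      rw [h2]
      exact 𝔯.mul_mem_left _ (Ideal.pow_mem_of_mem _ hb𝔯 _ hn)
    rcases h𝔯.mem_or_mem h3 with h4 | h4
    · exfalso
      have h5 := (hmem _).1 (hle h4)
      exact h5 ⟨hs0, hsV⟩
    · exact h𝔯.mem_of_pow_mem _ h4
  have hZ := zmt (P := P) (C := C) q (hq := hmax) (fun p hp => (hval _).2 (hmP p hp)) hq2
  obtain ⟨r, hrq, -, hr⟩ := Algebra.zariskisMainProperty_iff.1 hZ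
  -- the local ring is normal
  obtain ⟨𝔮, h𝔮, -, hL⟩ := lo_atPrime (loc_V V) hBV
  have hnP : IsIntegrallyClosed P :=
    @isIntegrallyClosed_of_isLocalization B P _ _
      (Subring.inclusion (Pool.Agent.W418.LU2.le_lo V.toSubring B)).toAlgebra _ _
      𝔮.primeCompl 𝔮.primeCompl_le_nonZeroDivisors hL
  have hfrP : IsFractionRing P K := isFractionRing_of_fr fun z => by
    obtain ⟨a, ha, b, hb, hb0, rfl⟩ := hfr z
    exact ⟨a, hBP ha, b, hBP hb, hb0, rfl⟩
  have hintP : ∀ c : C, IsIntegral P c → (c : K) ∈ P := by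
    intro c hc
    have h1 : IsIntegral P (c : K) := hc.map C.val
    obtain ⟨y, hy⟩ := IsIntegrallyClosed.algebraMap_eq_of_integral (K := K) h1
    rw [← hy]
    exact y.2
  have hrP : (r : K) ∈ P := by
    obtain ⟨m, hm⟩ := hr 1
    rw [mul_one] at hm
    rcases m with _ | m
    · obtain ⟨m, hm⟩ := hr r
      rw [← pow_succ] at hm
      exact hintP r ((IsIntegral.pow_iff (by simp)).1 hm)
    · exact hintP r ((IsIntegral.pow_iff (by simp)).1 hm)
  have hrV : ¬ V.valuation (r : K) < 1 := fun h1 => hrq ((hval r).2 h1)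
  rw [← nu_iff] at hrV
  obtain ⟨hr0, hriV⟩ := not_not.1 hrV
  have hri : (r : K)⁻¹ ∈ P := by
    have h1 : IsUnit (⟨(r : K), hrP⟩ : P) := (isUnit_lo_iff hBV _).2 ⟨hr0, hriV⟩
    obtain ⟨d, hd⟩ := isUnit_iff_exists_inv.1 h1
    have h2 : (r : K) * (d : K) = 1 := congrArg Subtype.val hd
    rw [← eq_inv_of_mul_eq_one_right h2]
    exact d.2
  have hCP : ∀ c : C, (c : K) ∈ P := by
    intro c
    obtain ⟨m, hm⟩ := hr c
    have h1 : (r : K) ^ m * (c : K) ∈ P := hintP _ hm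
    have h2 : (c : K) = ((r : K)⁻¹) ^ m * ((r : K) ^ m * (c : K)) := by
      rw [← mul_assoc, ← mul_pow, inv_mul_cancel₀ hr0, one_pow, one_mul]
    rw [h2]
    exact P.mul_mem (P.pow_mem hri _) h1
  have hVP : V.toSubring = P := by
    apply le_antisymm _ hPV
    nth_rewrite 1 [hVlo]
    refine lo_le_lo hBV ?_
    rw [Subring.closure_le]
    rintro w (hw | hw)
    · exact hBP hw
    · exact hCP ⟨w, Algebra.subset_adjoin hw⟩
  -- the dimension
  obtain ⟨𝔭', h𝔭', hmem', hdim⟩ := lo_loc (loc_V V) hBV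
  have h𝔭eq : 𝔭' = 𝔭 := by
    ext c
    rw [hmem', nu_iff, hcenV]
  subst h𝔭eq
  have hdimV : ringKrullDim V ≤ 1 := by
    rcases hVd with hV1 | hV1
    · exfalso
      have h1 := (hcenV b).1 hb𝔭
      rw [← nu_iff] at h1
      apply h1
      refine ⟨hb0', ?_⟩
      change (b : K)⁻¹ ∈ V
      rw [hV1]
      trivial
    · exact (IsDiscreteValuationRing.ringKrullDim_eq_one V).le
  have hdimP : ringKrullDim P ≤ 1 := by
    rw [← ringKrullDim_eq_of_ringEquiv (RingEquiv.subringCongr hVP)]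
    exact hdimV
  rw [hP, hdim] at hdimP
  exact absurd (by exact_mod_cast hdimP) (not_le.2 hht)

end Pool.Agent.V7H82.ZS
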